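import Pool.Agent.TC.L10

/-!
# Free boundary long range order, part 2: dyadic boxes and grids (helper23)

`Q d M = [0, 2^M - 1]^d`. For `κ : Fin d → ℕ` the box `Q` is divided in blocks with sides `2 ^ κ i`;
`TT M κ z` is the grid with one point in every block, `tt κ z x` the point of the grid in the block of `x`.
-/

set_option autoImplicit false

namespace Pool.Agent.LRO

open Finset Pool.Agent.SRC Pool.Agent.TC

variable {d : ℕ}

/-- the box `[0, 2^M - 1]^d` -/
noncomputable def Q (d M : ℕ) : Finset (Vx d) := Finset.Icc (fun _ => 0) (fun _ => 2 ^ M - 1)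

lemma mem_Q {M : ℕ} {x : Vx d} : x ∈ Q d M ↔ ∀ i, 0 ≤ x i ∧ x i < 2 ^ M := by
  unfold Q
  rw [Finset.mem_Icc, Pi.le_def, Pi.le_def]
  exact ⟨fun h i => ⟨h.1 i, by have := h.2 i; linarith⟩,
    fun h => ⟨fun i => (h i).1, fun i => by have := (h i).2; linarith⟩⟩

/-- the grid -/
noncomputable def TT (M : ℕ) (κ : Fin d → ℕ) (z : Vx d) : Finset (Vx d) :=
  (Q d M).filter (fun x => ∀ i, (2 : ℤ) ^ κ i ∣ x i - z i)

/-- the point of the grid in the block of `x` -/
def tt (κ : Fin d → ℕ) (z x : Vx d) : Vx d :=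
  fun i => 2 ^ κ i * (x i / 2 ^ κ i) + z i % 2 ^ κ i

/-- change of the binary digit number `k` of the coordinate `r` -/
def flip (r : Fin d) (k : ℕ) (x : Vx d) : Vx d :=
  Function.update x r (if x r / 2 ^ k % 2 = 0 then x r + 2 ^ k else x r - 2 ^ k)

/-! ## row b1 -/

lemma card_Q (d M : ℕ) : (Q d M).card = 2 ^ (d * M) := by
  unfold Q
  rw [Pi.card_Icc]
  have h : ∀ i : Fin d, (Finset.Icc (0 : ℤ) (2 ^ M - 1)).card = 2 ^ M := by
    intro i
    rw [Int.card_Icc]
    have h1 : (2 : ℤ) ^ M - 1 + 1 - 0 = ((2 ^ M : ℕ) : ℤ) := by push_cast; ring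
    rw [h1, Int.toNat_natCast]
  rw [Finset.prod_congr rfl fun i _ => h i, Finset.prod_const, Finset.card_univ, Fintype.card_fin,
    ← pow_mul, mul_comm]

private lemma b1_face (M : ℕ) (i : Fin d) :
    ((Q d M).filter (fun x => x i = 2 ^ M - 1)).card ≤ 2 ^ ((d - 1) * M) := by
  have h1 : (Q d M).filter (fun x => x i = 2 ^ M - 1) ⊆
      Finset.Icc (Function.update (fun _ => (0 : ℤ)) i (2 ^ M - 1)) (fun _ => 2 ^ M - 1) := by
    intro x hx
    rw [Finset.mem_filter] at hx
    have h2 := hx.1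
    unfold Q at h2
    rw [Finset.mem_Icc] at h2 ⊢
    refine ⟨fun j => ?_, h2.2⟩
    by_cases hj : j = i
    · subst hj
      rw [Function.update_self, hx.2]
    · rw [Function.update_of_ne hj]
      exact h2.1 j
  refine (Finset.card_le_card h1).trans (le_of_eq ?_)
  rw [Pi.card_Icc, ← Finset.mul_prod_erase Finset.univ _ (Finset.mem_univ i), Function.update_self]
  have h2 : ∀ j ∈ Finset.univ.erase i,
      (Finset.Icc (Function.update (fun _ => (0 : ℤ)) i (2 ^ M - 1) j) (2 ^ M - 1)).card = 2 ^ M := by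
    intro j hj
    rw [Function.update_of_ne (Finset.ne_of_mem_erase hj), Int.card_Icc]
    have h1 : (2 : ℤ) ^ M - 1 + 1 - 0 = ((2 ^ M : ℕ) : ℤ) := by push_cast; ring
    rw [h1, Int.toNat_natCast]
  rw [Finset.prod_congr rfl h2, Finset.prod_const, Finset.card_erase_of_mem (Finset.mem_univ i),
    Finset.card_univ, Fintype.card_fin, ← pow_mul, mul_comm M, Finset.Icc_self,
    Finset.card_singleton, one_mul]

/-- the number of boundary edges -/
lemma card_etg_Q (d M : ℕ) :
    ((etg (Q d M)).card : ℝ) - (edg (Q d M)).card ≤ 2 * d * 2 ^ ((d - 1) * M) := by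
  classical
  set S := Q d M with hS
  set A := S ×ˢ (Finset.univ : Finset (Fin d)) with hA
  set B := A.image (fun p : Ed d => (p.1 - uv p.2, p.2)) with hB
  have hAB : etg S = A ∪ B := rfl
  have hin : A ∩ B = edg S := by
    ext e
    rw [mem_edg, Finset.mem_inter]
    constructor
    · rintro ⟨h1, h2⟩
      rw [hA, Finset.mem_product] at h1
      rw [hB, Finset.mem_image] at h2
      obtain ⟨p, hp, rfl⟩ := h2
      refine ⟨h1.1, ?_⟩
      rw [hA, Finset.mem_product] at hp
      have h3 : tip (p.1 - uv p.2, p.2) = p.1 := sub_add_cancel p.1 (uv p.2)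
      rw [h3]
      exact hp.1
    · rintro ⟨h1, h2⟩
      refine ⟨Finset.mem_product.2 ⟨h1, Finset.mem_univ _⟩, ?_⟩
      rw [hB, Finset.mem_image]
      refine ⟨(tip e, e.2), Finset.mem_product.2 ⟨h2, Finset.mem_univ _⟩, ?_⟩
      exact Prod.ext (add_sub_cancel_right e.1 (uv e.2)) rfl
  have hBc : B.card = A.card := by
    refine Finset.card_image_of_injective _ ?_
    intro p q h
    have h0 : ((p.1 - uv p.2, p.2) : Ed d) = (q.1 - uv q.2, q.2) := h
    have h1 : p.2 = q.2 := (Prod.mk.inj h0).2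
    have h2 : p.1 - uv p.2 = q.1 - uv q.2 := (Prod.mk.inj h0).1
    rw [h1] at h2
    exact Prod.ext (sub_left_injective h2) h1
  have hcard := Finset.card_union_add_card_inter A B
  rw [hin, hBc, ← hAB] at hcard
  -- the edges that start in the box and leave it
  have hsub : A \ edg S ⊆ (Finset.univ : Finset (Fin d)).biUnion
      (fun i => ((Q d M).filter (fun x => x i = 2 ^ M - 1)).image (fun x => ((x, i) : Ed d))) := by
    intro e he
    rw [Finset.mem_sdiff, mem_edg, hA, Finset.mem_product] at he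
    obtain ⟨⟨h1, -⟩, h2⟩ := he
    have h3 : tip e ∉ S := fun h => h2 ⟨h1, h⟩
    rw [Finset.mem_biUnion]
    refine ⟨e.2, Finset.mem_univ _, ?_⟩
    rw [Finset.mem_image]
    refine ⟨e.1, ?_, rfl⟩
    rw [Finset.mem_filter]
    refine ⟨h1, ?_⟩
    by_contra h4
    apply h3
    rw [hS, mem_Q] at h1 ⊢
    intro j
    have h5 := h1 j
    have h6 : tip e j = e.1 j + uv e.2 j := rfl
    by_cases hj : j = e.2
    · have h7 : uv e.2 j = 1 := by
        rw [hj]
        exact Pi.single_eq_same _ _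
      rw [h6, h7]
      rw [hj] at h5 ⊢
      omega
    · have h7 : uv e.2 j = 0 := Pi.single_eq_of_ne hj _
      rw [h6, h7, add_zero]
      exact h5
  have hle : (A \ edg S).card ≤ d * 2 ^ ((d - 1) * M) := by
    refine (Finset.card_le_card hsub).trans (Finset.card_biUnion_le.trans ?_)
    refine (Finset.sum_le_sum fun i _ => Finset.card_image_le.trans (b1_face M i)).trans ?_
    rw [Finset.sum_const, Finset.card_univ, Fintype.card_fin, smul_eq_mul]
  have hsd : (A \ edg S).card + (edg S).card = A.card := by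
    refine Finset.card_sdiff_add_card_eq_card ?_
    rw [← hin]
    exact Finset.inter_subset_left
  have h1 : ((etg S).card : ℝ) + (edg S).card = A.card + A.card := by exact_mod_cast hcard
  have h2 : ((A \ edg S).card : ℝ) + (edg S).card = A.card := by exact_mod_cast hsd
  have h3 : ((A \ edg S).card : ℝ) ≤ d * 2 ^ ((d - 1) * M) := by exact_mod_cast hle
  linarith

/-! ## row b2 -/

private lemma b2_two {k M : ℕ} (hk : k < M) : ∃ c : ℤ, (2 : ℤ) ^ M = 2 ^ k * (2 * c) := by
  refine ⟨2 ^ (M - k - 1), ?_⟩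
  rw [← pow_succ', ← pow_add]
  congr 1
  omega

lemma flip_mem {M k : ℕ} (hk : k < M) (r : Fin d) {x : Vx d} (hx : x ∈ Q d M) :
    flip r k x ∈ Q d M := by
  rw [mem_Q] at hx ⊢
  intro i
  by_cases hi : i = r
  · subst hi
    unfold flip
    rw [Function.update_self]
    obtain ⟨c, hc⟩ := b2_two hk
    have ha : (0 : ℤ) < 2 ^ k := by positivity
    obtain ⟨h0, h1⟩ := hx i
    rw [hc] at h1 ⊢
    set a : ℤ := 2 ^ k with ha'
    have h2 := Int.mul_ediv_add_emod (x i) a
    have h3 := Int.emod_nonneg (x i) ha.ne'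
    have h4 := Int.emod_lt_of_pos (x i) ha
    set q := x i / a with hq
    have h5 : q < 2 * c := by
      by_contra h
      have h6 : a * (2 * c) ≤ a * q := mul_le_mul_of_nonneg_left (not_lt.1 h) ha.le
      linarith
    split_ifs with h6
    · refine ⟨by linarith, ?_⟩
      have h7 : q + 2 ≤ 2 * c := by omega
      have h8 : a * (q + 2) ≤ a * (2 * c) := mul_le_mul_of_nonneg_left h7 ha.le
      linarith
    · refine ⟨?_, by linarith⟩
      have h7 : 1 ≤ q := by
        have h9 : 0 ≤ q := Int.ediv_nonneg h0 ha.le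
        omega
      have h8 : a * 1 ≤ a * q := mul_le_mul_of_nonneg_left h7 ha.le
      linarith
  · unfold flip
    rw [Function.update_of_ne hi]
    exact hx i

lemma flip_flip (r : Fin d) (k : ℕ) (x : Vx d) : flip r k (flip r k x) = x := by
  have ha : (2 : ℤ) ^ k ≠ 0 := by positivity
  have h1 : (x r + 2 ^ k) / 2 ^ k = x r / 2 ^ k + 1 := Int.add_ediv_of_dvd_right (dvd_refl _) |>.trans
    (by rw [Int.ediv_self ha])
  have h2 : (x r - 2 ^ k) / 2 ^ k = x r / 2 ^ k - 1 := Int.sub_ediv_of_dvd _ (dvd_refl _) |>.trans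
    (by rw [Int.ediv_self ha])
  unfold flip
  rw [Function.update_self, Function.update_idem]
  funext i
  by_cases hi : i = r
  · subst hi
    rw [Function.update_self]
    by_cases h3 : x i / 2 ^ k % 2 = 0
    · rw [if_pos h3, h1, if_neg (by omega)]
      ring
    · rw [if_neg h3, h2, if_pos (by omega)]
      ring
  · rw [Function.update_of_ne hi]

lemma sum_flip {M k : ℕ} (hk : k < M) (r : Fin d) (f : Vx d → ℝ) :
    ∑ x ∈ Q d M, f (flip r k x) = ∑ x ∈ Q d M, f x := by
  refine Finset.sum_nbij' (flip r k) (flip r k) (fun x hx => flip_mem hk r hx)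
    (fun x hx => flip_mem hk r hx) (fun x _ => flip_flip r k x) (fun x _ => flip_flip r k x)
    (fun x _ => rfl)

/-! ## row b3 -/
-- BEGIN b3

lemma TT_sub (M : ℕ) (κ : Fin d → ℕ) (z : Vx d) : TT M κ z ⊆ Q d M := Finset.filter_subset _ _

lemma tt_mem {M : ℕ} {κ : Fin d → ℕ} (hκ : ∀ i, κ i ≤ M) (z : Vx d) {x : Vx d} (hx : x ∈ Q d M) :
    tt κ z x ∈ TT M κ z := by
  rw [mem_Q] at hx
  rw [TT, Finset.mem_filter, mem_Q]
  have hp : ∀ i, (0 : ℤ) < 2 ^ κ i := fun i => by positivity
  refine ⟨fun i => ?_, fun i => ?_⟩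
  · obtain ⟨h0, h1⟩ := hx i
    have h2 : 0 ≤ z i % 2 ^ κ i := Int.emod_nonneg _ (hp i).ne'
    have h3 : z i % 2 ^ κ i < 2 ^ κ i := Int.emod_lt_of_pos _ (hp i)
    have h4 : 0 ≤ x i / 2 ^ κ i := Int.ediv_nonneg h0 (hp i).le
    have h5 : (2 : ℤ) ^ M = 2 ^ κ i * 2 ^ (M - κ i) := by
      rw [← pow_add, Nat.add_sub_cancel' (hκ i)]
    have h6 : x i / 2 ^ κ i < 2 ^ (M - κ i) :=
      Int.ediv_lt_of_lt_mul (hp i) (by rw [mul_comm, ← h5]; exact h1)
    have h7 : 2 ^ κ i * (x i / 2 ^ κ i) ≤ 2 ^ κ i * (2 ^ (M - κ i) - 1) :=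
      mul_le_mul_of_nonneg_left (by linarith) (hp i).le
    have h8 : 0 ≤ 2 ^ κ i * (x i / 2 ^ κ i) := mul_nonneg (hp i).le h4
    refine ⟨?_, ?_⟩
    · show 0 ≤ 2 ^ κ i * (x i / 2 ^ κ i) + z i % 2 ^ κ i
      linarith
    · show 2 ^ κ i * (x i / 2 ^ κ i) + z i % 2 ^ κ i < 2 ^ M
      rw [h5]
      rw [mul_sub, mul_one] at h7
      linarith
  · show (2 : ℤ) ^ κ i ∣ 2 ^ κ i * (x i / 2 ^ κ i) + z i % 2 ^ κ i - z i
    refine ⟨x i / 2 ^ κ i - z i / 2 ^ κ i, ?_⟩
    have h1 := Int.emod_add_mul_ediv (z i) (2 ^ κ i)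
    linear_combination h1

lemma TT_mono (M : ℕ) {κ κ' : Fin d → ℕ} (h : ∀ i, κ i ≤ κ' i) (z : Vx d) :
    TT M κ' z ⊆ TT M κ z := by
  intro x hx
  rw [TT, Finset.mem_filter] at hx ⊢
  exact ⟨hx.1, fun i => (pow_dvd_pow (2 : ℤ) (h i)).trans (hx.2 i)⟩

/-- one coordinate of `card_TT` -/
private lemma b3_one {M k : ℕ} (hk : k ≤ M) (z : ℤ) :
    ((Finset.Ico (0 : ℤ) (2 ^ M)).filter (fun x => (2 : ℤ) ^ k ∣ x - z)).card * 2 ^ k ≤ 2 ^ M := by
  have hp : (0 : ℤ) < 2 ^ k := by positivity
  have h5 : (2 : ℤ) ^ M = 2 ^ k * 2 ^ (M - k) := by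
    rw [← pow_add, Nat.add_sub_cancel' hk]
  have h1 : ((Finset.Ico (0 : ℤ) (2 ^ M)).filter (fun x => (2 : ℤ) ^ k ∣ x - z)).card ≤
      (Finset.Ico (0 : ℤ) (2 ^ (M - k))).card := by
    refine Finset.card_le_card_of_injOn (fun x => x / 2 ^ k) ?_ ?_
    · intro x hx
      rw [Finset.mem_coe, Finset.mem_filter, Finset.mem_Ico] at hx
      rw [Finset.mem_coe, Finset.mem_Ico]
      exact ⟨Int.ediv_nonneg hx.1.1 hp.le,
        Int.ediv_lt_of_lt_mul hp (by rw [mul_comm, ← h5]; exact hx.1.2)⟩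
    · intro x hx y hy hxy
      rw [Finset.mem_coe, Finset.mem_filter] at hx hy
      have h2 : x / 2 ^ k = y / 2 ^ k := hxy
      have h3 : (2 : ℤ) ^ k ∣ x - y := by
        have h4 := dvd_sub hx.2 hy.2
        rwa [sub_sub_sub_cancel_right] at h4
      have h6 : x % 2 ^ k = y % 2 ^ k := Int.ModEq.symm (Int.modEq_iff_dvd.2 h3)
      have h7 := Int.emod_add_mul_ediv x (2 ^ k)
      have h8 := Int.emod_add_mul_ediv y (2 ^ k)
      rw [← h7, ← h8, h2, h6]
  rw [Int.card_Ico, sub_zero] at h1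
  have h9 : ((2 : ℤ) ^ (M - k)).toNat = 2 ^ (M - k) := by
    have : ((2 : ℤ) ^ (M - k)) = ((2 ^ (M - k) : ℕ) : ℤ) := by push_cast; rfl
    rw [this, Int.toNat_natCast]
  rw [h9] at h1
  calc _ ≤ 2 ^ (M - k) * 2 ^ k := Nat.mul_le_mul_right _ h1
    _ = 2 ^ M := by rw [← pow_add, Nat.sub_add_cancel hk]

lemma card_TT {M : ℕ} {κ : Fin d → ℕ} (hκ : ∀ i, κ i ≤ M) (z : Vx d) :
    (TT M κ z).card * 2 ^ (∑ i, κ i) ≤ 2 ^ (d * M) := by
  have h1 : TT M κ z ⊆ Fintype.piFinset (fun i =>
      (Finset.Ico (0 : ℤ) (2 ^ M)).filter (fun x => (2 : ℤ) ^ κ i ∣ x - z i)) := by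
    intro x hx
    rw [TT, Finset.mem_filter, mem_Q] at hx
    rw [Fintype.mem_piFinset]
    intro i
    rw [Finset.mem_filter, Finset.mem_Ico]
    exact ⟨hx.1 i, hx.2 i⟩
  calc (TT M κ z).card * 2 ^ (∑ i, κ i)
      ≤ (Fintype.piFinset (fun i => (Finset.Ico (0 : ℤ) (2 ^ M)).filter
          (fun x => (2 : ℤ) ^ κ i ∣ x - z i))).card * 2 ^ (∑ i, κ i) :=
        Nat.mul_le_mul_right _ (Finset.card_le_card h1)
    _ = ∏ i, (((Finset.Ico (0 : ℤ) (2 ^ M)).filter
          (fun x => (2 : ℤ) ^ κ i ∣ x - z i)).card * 2 ^ κ i) := by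
        rw [Fintype.card_piFinset, ← Finset.prod_pow_eq_pow_sum, Finset.prod_mul_distrib]
    _ ≤ ∏ _i : Fin d, 2 ^ M := Finset.prod_le_prod' fun i _ => b3_one (hκ i) (z i)
    _ = 2 ^ (d * M) := by
        rw [Finset.prod_const, Finset.card_univ, Fintype.card_fin, ← pow_mul, mul_comm]
-- END b3

/-! ## row b4 -/

/- BEGIN b4 (helper83) -/
private lemma b4_dvd (a : ℤ) (c : Prop) [Decidable c] (K : ℤ) (X : ℤ) :
    K ∣ a - (if c then X + K else X - K) ↔ K ∣ a - X := by
  split_ifs
  · rw [show a - (X + K) = (a - X) - K by ring]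
    exact dvd_sub_self_right
  · rw [show a - (X - K) = (a - X) + K by ring]
    exact dvd_add_self_right

private lemma b4_mod (c : Prop) [Decidable c] (K : ℤ) (X : ℤ) :
    (if c then X + K else X - K) % K = X % K := by
  split_ifs
  · exact Int.add_emod_right X K
  · exact Int.sub_emod_right X K

/-- the grid depends only on `z` modulo `2 ^ κ` -/
lemma TT_flip (M : ℕ) (κ : Fin d → ℕ) (r : Fin d) (z : Vx d) :
    TT M κ (flip r (κ r) z) = TT M κ z := by
  unfold TT
  refine Finset.filter_congr fun x _ => forall_congr' fun i => ?_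
  rcases eq_or_ne i r with rfl | hi
  · rw [flip, Function.update_self, b4_dvd]
  · rw [flip, Function.update_of_ne hi]

lemma tt_flip_left (κ : Fin d → ℕ) (r : Fin d) (z x : Vx d) :
    tt κ (flip r (κ r) z) x = tt κ z x := by
  funext i
  unfold tt
  rcases eq_or_ne i r with rfl | hi
  · rw [flip, Function.update_self, b4_mod]
  · rw [flip, Function.update_of_ne hi]

private lemma b4_key (K X Z : ℤ) (hK : 0 < K) :
    K * 2 * (X / (K * 2)) + Z % (K * 2) =
      K * (X / K) - K * (X / K % 2) + (Z % K + K * (Z / K % 2)) := by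
  have h1 : X / (K * 2) = X / K / 2 := (Int.ediv_ediv_of_nonneg hK.le).symm
  have h2 := Int.emod_add_mul_ediv Z (K * 2)
  have h3 : Z / (K * 2) = Z / K / 2 := (Int.ediv_ediv_of_nonneg hK.le).symm
  have h4 := Int.emod_add_mul_ediv Z K
  have h5 := Int.emod_add_mul_ediv (Z / K) 2
  have h6 := Int.emod_add_mul_ediv (X / K) 2
  rw [h3] at h2
  rw [h1]
  generalize X / K / 2 = a at *
  generalize X / K % 2 = b at *
  generalize X / K = q at *
  generalize Z / K / 2 = a' at *
  generalize Z / K % 2 = b' at *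
  generalize Z / K = q' at *
  have h7 : Z % (K * 2) = Z - K * 2 * a' := by linarith
  have h8 : Z % K = Z - K * q' := by linarith
  rw [h7, h8, ← h5, ← h6]
  ring

/-- the blocks of the next grid: the point is the one of `x` or of `flip x`, depending on the digits
number `κ r` of `x r` and `z r` -/
lemma tt_succ (κ : Fin d → ℕ) (r : Fin d) (z x : Vx d) :
    tt (Function.update κ r (κ r + 1)) z x =
      if x r / 2 ^ κ r % 2 = z r / 2 ^ κ r % 2 then tt κ z x else tt κ z (flip r (κ r) x) := by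
  funext i
  rcases eq_or_ne i r with rfl | hi
  · have hK : (0 : ℤ) < 2 ^ κ i := by positivity
    have h1 := b4_key (2 ^ κ i) (x i) (z i) hK
    have h2 : tt (Function.update κ i (κ i + 1)) z x i =
        2 ^ κ i * 2 * (x i / (2 ^ κ i * 2)) + z i % (2 ^ κ i * 2) := by
      unfold tt
      rw [Function.update_self, pow_succ]
    rw [h2, h1]
    have hx := Int.emod_two_eq (x i / 2 ^ κ i)
    have hz := Int.emod_two_eq (z i / 2 ^ κ i)
    split_ifs with h3
    · rw [h3]
      unfold tt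
      ring
    · unfold tt flip
      rw [Function.update_self]
      rcases hx with hx | hx
      · rcases hz with hz | hz
        · exact absurd (hx.trans hz.symm) h3
        · have h4 : (x i + 2 ^ κ i) / 2 ^ κ i = x i / 2 ^ κ i + 1 := by
            have := Int.add_mul_ediv_right (x i) 1 hK.ne'
            rwa [one_mul] at this
          rw [if_pos hx, h4, hx, hz]
          ring
      · rcases hz with hz | hz
        · have h4 : (x i - 2 ^ κ i) / 2 ^ κ i = x i / 2 ^ κ i - 1 := by
            have := Int.add_mul_ediv_right (x i) (-1) hK.ne'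
            rw [neg_one_mul] at this
            exact this
          rw [if_neg (by rw [hx]; exact one_ne_zero), h4, hx, hz]
          ring
        · exact absurd (hx.trans hz.symm) h3
  · have h2 : tt (Function.update κ r (κ r + 1)) z x i = tt κ z x i := by
      unfold tt
      rw [Function.update_of_ne hi]
    rw [h2]
    split_ifs with h3
    · rfl
    · unfold tt flip
      rw [Function.update_of_ne hi]
/- END b4 -/

/-! ## row b5 -/

/- BEGIN b5 (helper83) -/
private lemma b5_digit (r : Fin d) (k : ℕ) (z : Vx d) (e : ℤ) (he : e = 0 ∨ e = 1) :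
    (e = flip r k z r / 2 ^ k % 2) ↔ ¬ (e = z r / 2 ^ k % 2) := by
  have hK : (0 : ℤ) < 2 ^ k := by positivity
  have hz := Int.emod_two_eq (z r / 2 ^ k)
  have h4 : (z r + 2 ^ k) / 2 ^ k = z r / 2 ^ k + 1 := by
    have := Int.add_mul_ediv_right (z r) 1 hK.ne'
    rwa [one_mul] at this
  have h5 : (z r - 2 ^ k) / 2 ^ k = z r / 2 ^ k - 1 := by
    have := Int.add_mul_ediv_right (z r) (-1) hK.ne'
    rw [neg_one_mul] at this
    exact this
  unfold flip
  rw [Function.update_self]
  generalize z r / 2 ^ k = q at *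
  split_ifs with h
  · rw [h4]
    omega
  · rw [h5]
    omega

/-- Averaging over the digit number `κ r` of `z r`: for `h` depending only on `z` modulo `2 ^ κ`. -/
lemma sum_tt_succ {M : ℕ} (κ : Fin d → ℕ) (r : Fin d) (hr : κ r < M) (h : Vx d → Vx d → Vx d → ℝ)
    (hh : ∀ z x t, h (flip r (κ r) z) x t = h z x t) :
    2 * ∑ z ∈ Q d M, ∑ x ∈ Q d M, h z x (tt (Function.update κ r (κ r + 1)) z x) =
      ∑ z ∈ Q d M, ∑ x ∈ Q d M, (h z x (tt κ z x) + h z (flip r (κ r) x) (tt κ z x)) := by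
  have e1 : ∑ z ∈ Q d M, ∑ x ∈ Q d M,
        h (flip r (κ r) z) x (tt (Function.update κ r (κ r + 1)) (flip r (κ r) z) x) =
      ∑ z ∈ Q d M, ∑ x ∈ Q d M, h z x (tt (Function.update κ r (κ r + 1)) z x) :=
    sum_flip hr r (fun z => ∑ x ∈ Q d M, h z x (tt (Function.update κ r (κ r + 1)) z x))
  rw [two_mul]
  nth_rewrite 1 [← e1]
  rw [← Finset.sum_add_distrib]
  refine Finset.sum_congr rfl fun z _ => ?_
  have e2 : ∑ x ∈ Q d M, h z (flip r (κ r) (flip r (κ r) x)) (tt κ z (flip r (κ r) x)) =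
      ∑ x ∈ Q d M, h z (flip r (κ r) x) (tt κ z x) :=
    sum_flip hr r (fun x => h z (flip r (κ r) x) (tt κ z x))
  rw [Finset.sum_add_distrib, ← e2, ← Finset.sum_add_distrib, ← Finset.sum_add_distrib]
  refine Finset.sum_congr rfl fun x _ => ?_
  rw [hh, flip_flip, tt_succ, tt_succ, tt_flip_left, tt_flip_left]
  have h3 := b5_digit r (κ r) z (x r / 2 ^ κ r % 2) (Int.emod_two_eq _)
  by_cases h4 : x r / 2 ^ κ r % 2 = z r / 2 ^ κ r % 2
  · rw [if_pos h4, if_neg (fun h5 => (h3.1 h5) h4)]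
    exact add_comm _ _
  · rw [if_neg h4, if_pos (h3.2 h4)]
/- END b5 -/

/-! ## row b6 -/

private lemma b6_smul (j : ℕ) (r i : Fin d) :
    (j • uv r : Vx d) i = if i = r then (j : ℤ) else 0 := by
  by_cases h : i = r
  · subst h
    simp [uv]
  · simp [uv, h]

/-- the vertices of the segment are in the box -/
lemma segment_mem {M k : ℕ} (hk : k < M) (r : Fin d) {x : Vx d} (hx : x ∈ Q d M) (j : ℕ)
    (hj : j ≤ 2 ^ k) : (if x r / 2 ^ k % 2 = 0 then x else flip r k x) + j • uv r ∈ Q d M := by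
  have hf := mem_Q.1 (flip_mem hk r hx)
  have hx' := mem_Q.1 hx
  have hj' : (j : ℤ) ≤ 2 ^ k := by exact_mod_cast hj
  rw [mem_Q]
  intro i
  rw [Pi.add_apply, b6_smul]
  have h1 := hx' i
  by_cases h0 : x r / 2 ^ k % 2 = 0
  · rw [if_pos h0]
    by_cases hi : i = r
    · subst hi
      have h2 := hf i
      unfold flip at h2
      rw [if_pos h0, Function.update_self] at h2
      rw [if_pos rfl]
      constructor
      · have : (0 : ℤ) ≤ j := Int.natCast_nonneg j
        linarith [h1.1]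
      · linarith [h2.2]
    · rw [if_neg hi, add_zero]
      exact h1
  · rw [if_neg h0]
    by_cases hi : i = r
    · subst hi
      have h2 := hf i
      have h3 : flip i k x i = x i - 2 ^ k := by
        unfold flip
        rw [if_neg h0, Function.update_self]
      rw [if_pos rfl]
      rw [h3] at h2 ⊢
      constructor
      · have : (0 : ℤ) ≤ j := Int.natCast_nonneg j
        linarith [h2.1]
      · linarith [h1.2]
    · rw [if_neg hi, add_zero]
      have h3 : flip r k x i = x i := by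
        unfold flip
        rw [Function.update_of_ne hi]
      rw [h3]
      exact h1

/-- the end of the segment -/
lemma segment_end (r : Fin d) (k : ℕ) (x : Vx d) :
    (if x r / 2 ^ k % 2 = 0 then x else flip r k x) + (2 ^ k : ℕ) • uv r =
      if x r / 2 ^ k % 2 = 0 then flip r k x else x := by
  funext i
  rw [Pi.add_apply, b6_smul]
  by_cases h0 : x r / 2 ^ k % 2 = 0
  · rw [if_pos h0, if_pos h0]
    unfold flip
    rw [if_pos h0]
    by_cases hi : i = r
    · subst hi
      rw [Function.update_self, if_pos rfl]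
      push_cast
      ring
    · rw [Function.update_of_ne hi, if_neg hi, add_zero]
  · rw [if_neg h0, if_neg h0]
    unfold flip
    rw [if_neg h0]
    by_cases hi : i = r
    · subst hi
      rw [Function.update_self, if_pos rfl]
      push_cast
      ring
    · rw [Function.update_of_ne hi, if_neg hi, add_zero]

/-- The segments from `x` to `flip x` cover every edge at most `2 · 2 ^ k` times. (`y` is the smaller one of
`x` and `flip x`.) -/
lemma sum_segments {M k : ℕ} (hk : k < M) (r : Fin d) (D : Ed d → ℝ)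
    (hD : ∀ e ∈ edg (Q d M), 0 ≤ D e) :
    ∑ x ∈ Q d M, ∑ j ∈ Finset.range (2 ^ k),
      D ((if x r / 2 ^ k % 2 = 0 then x else flip r k x) + j • uv r, r) ≤
      2 * 2 ^ k * ∑ e ∈ edg (Q d M), D e := by
  classical
  have key : ∀ j ∈ Finset.range (2 ^ k), ∑ x ∈ Q d M,
      D ((if x r / 2 ^ k % 2 = 0 then x else flip r k x) + j • uv r, r) ≤
        2 * ∑ e ∈ edg (Q d M), D e := by
    intro j hj
    rw [Finset.mem_range] at hj
    have hmem : ∀ x ∈ Q d M,
        (((if x r / 2 ^ k % 2 = 0 then x else flip r k x) + j • uv r, r) : Ed d) ∈ edg (Q d M) := by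
      intro x hx
      rw [mem_edg]
      refine ⟨segment_mem hk r hx j hj.le, ?_⟩
      have h1 := segment_mem hk r hx (j + 1) hj
      rw [add_smul, one_smul, ← add_assoc] at h1
      exact h1
    rw [← Finset.sum_filter_add_sum_filter_not (Q d M) (fun x => x r / 2 ^ k % 2 = 0), two_mul]
    refine add_le_add ?_ ?_
    · have h1 : ∑ x ∈ (Q d M).filter (fun x => x r / 2 ^ k % 2 = 0),
          D ((if x r / 2 ^ k % 2 = 0 then x else flip r k x) + j • uv r, r)
          = ∑ e ∈ ((Q d M).filter (fun x => x r / 2 ^ k % 2 = 0)).image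
              (fun x => ((x + j • uv r, r) : Ed d)), D e := by
        rw [Finset.sum_image]
        · refine Finset.sum_congr rfl fun x hx => ?_
          rw [if_pos (Finset.mem_filter.1 hx).2]
        · intro x _ y _ h
          exact add_right_cancel (Prod.ext_iff.1 h).1
      rw [h1]
      refine Finset.sum_le_sum_of_subset_of_nonneg ?_ fun e he _ => hD e he
      intro e he
      obtain ⟨x, hx, rfl⟩ := Finset.mem_image.1 he
      rw [Finset.mem_filter] at hx
      have h2 := hmem x hx.1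
      rw [if_pos hx.2] at h2
      exact h2
    · have h1 : ∑ x ∈ (Q d M).filter (fun x => ¬ x r / 2 ^ k % 2 = 0),
          D ((if x r / 2 ^ k % 2 = 0 then x else flip r k x) + j • uv r, r)
          = ∑ e ∈ ((Q d M).filter (fun x => ¬ x r / 2 ^ k % 2 = 0)).image
              (fun x => ((flip r k x + j • uv r, r) : Ed d)), D e := by
        rw [Finset.sum_image]
        · refine Finset.sum_congr rfl fun x hx => ?_
          rw [if_neg (Finset.mem_filter.1 hx).2]
        · intro x _ y _ h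
          have h3 : flip r k x = flip r k y := add_right_cancel (Prod.ext_iff.1 h).1
          rw [← flip_flip r k x, h3, flip_flip]
      rw [h1]
      refine Finset.sum_le_sum_of_subset_of_nonneg ?_ fun e he _ => hD e he
      intro e he
      obtain ⟨x, hx, rfl⟩ := Finset.mem_image.1 he
      rw [Finset.mem_filter] at hx
      have h2 := hmem x hx.1
      rw [if_neg hx.2] at h2
      exact h2
  rw [Finset.sum_comm]
  calc ∑ j ∈ Finset.range (2 ^ k), ∑ x ∈ Q d M,
      D ((if x r / 2 ^ k % 2 = 0 then x else flip r k x) + j • uv r, r)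
      ≤ ∑ _j ∈ Finset.range (2 ^ k), 2 * ∑ e ∈ edg (Q d M), D e := Finset.sum_le_sum key
    _ = 2 * 2 ^ k * ∑ e ∈ edg (Q d M), D e := by
      rw [Finset.sum_const, Finset.card_range, nsmul_eq_mul]
      push_cast
      ring

/-! ## row b7 -/

/-- every `t` is `tt κ z x` for at most `∏ 2 ^ (M - κ i)` elements `z`, all `κ i = b` -/
lemma sum_tt_le {M b : ℕ} (hb : b ≤ M) {x : Vx d} (hx : x ∈ Q d M) (f : Vx d → ℝ)
    (hf : ∀ t ∈ Q d M, 0 ≤ f t) :
    ∑ z ∈ Q d M, f (tt (fun _ => b) z x) ≤ 2 ^ (d * (M - b)) * ∑ t ∈ Q d M, f t := by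
  classical
  have hm : ∀ z ∈ Q d M, tt (fun _ => b) z x ∈ Q d M := fun z _ =>
    TT_sub M (fun _ => b) z (tt_mem (fun _ => hb) z hx)
  rw [← Finset.sum_fiberwise_of_maps_to hm, Finset.mul_sum]
  refine Finset.sum_le_sum fun t ht => ?_
  have h1 : ∑ z ∈ (Q d M).filter (fun z => tt (fun _ => b) z x = t), f (tt (fun _ => b) z x)
      = (((Q d M).filter (fun z => tt (fun _ => b) z x = t)).card : ℝ) * f t := by
    rw [← nsmul_eq_mul, ← Finset.sum_const]
    refine Finset.sum_congr rfl fun z hz => ?_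
    rw [(Finset.mem_filter.1 hz).2]
  rw [h1]
  refine mul_le_mul_of_nonneg_right ?_ (hf t ht)
  have h2 : ((Q d M).filter (fun z => tt (fun _ => b) z x = t)).card ≤ (Q d (M - b)).card := by
    refine Finset.card_le_card_of_injOn (fun z i => z i / 2 ^ b) ?_ ?_
    · intro z hz
      have hz' := mem_Q.1 (Finset.mem_filter.1 (Finset.mem_coe.1 hz)).1
      rw [Finset.mem_coe, mem_Q]
      intro i
      refine ⟨Int.ediv_nonneg (hz' i).1 (by positivity), ?_⟩
      refine Int.ediv_lt_of_lt_mul (by positivity) ?_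
      rw [← pow_add, Nat.sub_add_cancel hb]
      exact (hz' i).2
    · intro z hz z' hz' h
      have hz1 := (Finset.mem_filter.1 (Finset.mem_coe.1 hz)).2
      have hz2 := (Finset.mem_filter.1 (Finset.mem_coe.1 hz')).2
      funext i
      have e1 := congrFun (hz1.trans hz2.symm) i
      have e2 := congrFun h i
      unfold tt at e1
      simp only at e1 e2
      rw [← Int.mul_ediv_add_emod (z i) (2 ^ b), ← Int.mul_ediv_add_emod (z' i) (2 ^ b), e2]
      linarith
  rw [card_Q] at h2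
  exact_mod_cast h2

end Pool.Agent.LRO
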