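import Pool.Agent.LRO.Tools
import Pool.Agent.LRO.Dyad

/-!
# Free boundary long range order, part 3 (helper23, after helper63)
-/

set_option autoImplicit false

namespace Pool.Agent.LRO

open Finset Pool.Agent.SRC Pool.Agent.TC

variable {d : ℕ}

/-- the sum over the grids and the points of the box -/
noncomputable def cc (d M : ℕ) (κ : Fin d → ℕ) (β : ℝ) : ℝ :=
  ∑ z ∈ Q d M, ∑ x ∈ Q d M, hh (Q d M) (TT M κ z) β x (tt κ z x)

/-! ## row c1: one step -/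

-- row c1 (helper23): replaces step in Main.lean
private lemma c1_seg {M : ℕ} (κ : Fin d → ℕ) (hκ : ∀ i, κ i ≤ M) (r : Fin d) (hr : κ r < M)
    (β m : ℝ) (hβ : 0 ≤ β) (hm : 0 < m) (h : ∀ (S : Finset (Vx d)) (x : Vx d), m ≤ mp S β x)
    (z : Vx d) {x : Vx d} (hx : x ∈ Q d M) :
    hh (Q d M) (TT M κ z) β x (tt κ z x) -
      hh (Q d M) (TT M κ z) β (flip r (κ r) x) (tt κ z x) ≤
      ∑ j ∈ Finset.range (2 ^ κ r), dd (Q d M) (TT M κ z) β
        ((if x r / 2 ^ κ r % 2 = 0 then x else flip r (κ r) x) + j • uv r, r) / m ^ 2 := by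
  have h1 := hh_segment (Q d M) (TT M κ z) (TT_sub M κ z) β m hβ hm (fun y => h _ y) (tt κ z x)
    (tt_mem hκ z hx) r (if x r / 2 ^ κ r % 2 = 0 then x else flip r (κ r) x) (2 ^ κ r)
    (fun j hj => segment_mem hr r hx j hj)
  rw [segment_end] at h1
  by_cases hb : x r / 2 ^ κ r % 2 = 0
  · simp only [if_pos hb] at h1 ⊢
    exact (le_abs_self _).trans h1
  · simp only [if_neg hb] at h1 ⊢
    rw [abs_sub_comm] at h1
    exact (le_abs_self _).trans h1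

/-- `sum_tt_succ` with `h z x t = cf x t / mp (Q \ TT κ z) x` (`mp_sdiff_mono`, `TT_mono`), then
`hh_segment`, `segment_mem`, `segment_end`, `sum_segments`. -/
theorem step {M : ℕ} (κ : Fin d → ℕ) (hκ : ∀ i, κ i ≤ M) (r : Fin d) (hr : κ r < M) (β m : ℝ)
    (hβ : 0 ≤ β) (hm : 0 < m) (h : ∀ (S : Finset (Vx d)) (x : Vx d), m ≤ mp S β x) :
    cc d M κ β - 2 ^ κ r / m ^ 2 * ∑ z ∈ Q d M, ∑ e ∈ edg (Q d M), dd (Q d M) (TT M κ z) β e ≤
      cc d M (Function.update κ r (κ r + 1)) β := by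
  have h1 := sum_tt_succ κ r hr (fun z x t => hh (Q d M) (TT M κ z) β x t)
    (fun z x t => by simp only [TT_flip])
  have hmono : ∀ i, κ i ≤ Function.update κ r (κ r + 1) i := by
    intro i
    by_cases hi : i = r
    · subst hi
      rw [Function.update_self]
      exact Nat.le_succ _
    · rw [Function.update_of_ne hi]
  have h2 : ∑ z ∈ Q d M, ∑ x ∈ Q d M, hh (Q d M) (TT M κ z) β x
      (tt (Function.update κ r (κ r + 1)) z x) ≤ cc d M (Function.update κ r (κ r + 1)) β := by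
    unfold cc
    refine Finset.sum_le_sum fun z _ => Finset.sum_le_sum fun x _ => ?_
    unfold hh
    exact div_le_div_of_nonneg_left (cf_nonneg _ _ hβ _ _) (lt_of_lt_of_le hm (h _ _))
      (mp_sdiff_mono _ _ _ (TT_mono M hmono z) β hβ x)
  have h3 : ∑ z ∈ Q d M, ∑ x ∈ Q d M, (hh (Q d M) (TT M κ z) β x (tt κ z x) -
      hh (Q d M) (TT M κ z) β (flip r (κ r) x) (tt κ z x)) ≤
      ∑ z ∈ Q d M, 2 * 2 ^ κ r / m ^ 2 * ∑ e ∈ edg (Q d M), dd (Q d M) (TT M κ z) β e := by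
    refine Finset.sum_le_sum fun z _ => ?_
    have h4 := sum_segments hr r (dd (Q d M) (TT M κ z) β)
      (fun e he => dd_nonneg _ _ β hβ e he)
    have h5 : 2 * 2 ^ κ r / m ^ 2 * ∑ e ∈ edg (Q d M), dd (Q d M) (TT M κ z) β e =
        (2 * 2 ^ κ r * ∑ e ∈ edg (Q d M), dd (Q d M) (TT M κ z) β e) / m ^ 2 := by ring
    rw [h5]
    refine le_trans (Finset.sum_le_sum fun x hx => c1_seg κ hκ r hr β m hβ hm h z hx) ?_
    simp only [← Finset.sum_div]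
    exact div_le_div_of_nonneg_right h4 (by positivity)
  rw [← Finset.mul_sum] at h3
  simp only [Finset.sum_add_distrib] at h1
  simp only [Finset.sum_sub_distrib] at h3
  have h6 : cc d M κ β = ∑ z ∈ Q d M, ∑ x ∈ Q d M, hh (Q d M) (TT M κ z) β x (tt κ z x) := rfl
  rw [← h6] at h1 h3
  have h7 : 2 * 2 ^ κ r / m ^ 2 * ∑ z ∈ Q d M, ∑ e ∈ edg (Q d M), dd (Q d M) (TT M κ z) β e =
      2 * (2 ^ κ r / m ^ 2 * ∑ z ∈ Q d M, ∑ e ∈ edg (Q d M), dd (Q d M) (TT M κ z) β e) := by ring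
  rw [h7] at h3
  linarith

/-! ## row c2: all steps -/

/-- the grids between the level `k` and the level `k + 1` -/
def lev (k : ℕ) (r : ℕ) : Fin d → ℕ := fun i => if (i : ℕ) < r then k + 1 else k

/-- the potential -/
noncomputable def GG (d M a b : ℕ) (β : ℝ) : ℝ :=
  ∑ k ∈ Finset.Ico a b, ∑ r ∈ Finset.range d, 2 ^ k * ∑ z ∈ Q d M, FF (Q d M) (TT M (lev k r) z) β


-- row c2 (helper23): replaces steps in Main.lean (after GG)
private lemma c2_lev_zero (k : ℕ) : (lev k 0 : Fin d → ℕ) = fun _ => k := by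
  funext i
  show (if (i : ℕ) < 0 then k + 1 else k) = k
  rw [if_neg (Nat.not_lt_zero _)]

private lemma c2_lev_top (k : ℕ) : (lev k d : Fin d → ℕ) = fun _ => k + 1 := by
  funext i
  show (if (i : ℕ) < d then k + 1 else k) = k + 1
  rw [if_pos i.2]

private lemma c2_lev_self (k r : ℕ) (hr : r < d) : (lev k r : Fin d → ℕ) ⟨r, hr⟩ = k := by
  show (if r < r then k + 1 else k) = k
  rw [if_neg (lt_irrefl _)]

private lemma c2_lev_succ (k r : ℕ) (hr : r < d) :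
    Function.update (lev k r : Fin d → ℕ) ⟨r, hr⟩ ((lev k r : Fin d → ℕ) ⟨r, hr⟩ + 1) =
      lev k (r + 1) := by
  funext i
  rw [c2_lev_self]
  by_cases hi : i = ⟨r, hr⟩
  · subst hi
    rw [Function.update_self]
    show k + 1 = if r < r + 1 then k + 1 else k
    rw [if_pos (Nat.lt_succ_self r)]
  · rw [Function.update_of_ne hi]
    have h1 : (i : ℕ) ≠ r := fun h => hi (Fin.ext h)
    show (if (i : ℕ) < r then k + 1 else k) = if (i : ℕ) < r + 1 then k + 1 else k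
    by_cases h2 : (i : ℕ) < r
    · rw [if_pos h2, if_pos (by omega)]
    · rw [if_neg h2, if_neg (by omega)]

private lemma c2_lev_le (k r M : ℕ) (hk : k < M) (i : Fin d) : (lev k r : Fin d → ℕ) i ≤ M := by
  show (if (i : ℕ) < r then k + 1 else k) ≤ M
  split_ifs <;> omega

/-- the sum of the differences of the energies -/
private noncomputable def c2_W (d M : ℕ) (β : ℝ) (k r : ℕ) : ℝ :=
  ∑ z ∈ Q d M, ∑ e ∈ edg (Q d M), dd (Q d M) (TT M (lev k r) z) β e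

private lemma c2_level {M : ℕ} (β m : ℝ) (hβ : 0 ≤ β) (hm : 0 < m)
    (h : ∀ (S : Finset (Vx d)) (x : Vx d), m ≤ mp S β x) (k : ℕ) (hk : k < M) (r : ℕ)
    (hr : r ≤ d) :
    cc d M (fun _ => k) β - ∑ j ∈ Finset.range r, 2 ^ k / m ^ 2 * c2_W d M β k j ≤
      cc d M (lev k r) β := by
  induction r with
  | zero =>
    rw [Finset.range_zero, Finset.sum_empty, sub_zero, c2_lev_zero]
  | succ r ih =>
    have h1 := ih (by omega)
    have h2 := step (M := M) (lev k r : Fin d → ℕ) (c2_lev_le k r M hk) ⟨r, hr⟩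
      (by rw [c2_lev_self]; exact hk) β m hβ hm h
    rw [c2_lev_succ, c2_lev_self] at h2
    rw [Finset.sum_range_succ]
    have h3 : c2_W d M β k r = ∑ z ∈ Q d M, ∑ e ∈ edg (Q d M),
      dd (Q d M) (TT M (lev k r) z) β e := rfl
    rw [← h3] at h2
    linarith

private lemma c2_levels {M : ℕ} (β m : ℝ) (hβ : 0 ≤ β) (hm : 0 < m)
    (h : ∀ (S : Finset (Vx d)) (x : Vx d), m ≤ mp S β x) {a b : ℕ} (hab : a ≤ b) (hb : b ≤ M) :
    cc d M (fun _ => a) β -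
      ∑ k ∈ Finset.Ico a b, ∑ j ∈ Finset.range d, 2 ^ k / m ^ 2 * c2_W d M β k j ≤
      cc d M (fun _ => b) β := by
  induction b, hab using Nat.le_induction with
  | base => rw [Finset.Ico_self, Finset.sum_empty, sub_zero]
  | succ b hab ih =>
    have h1 := ih (by omega)
    have h2 := c2_level (M := M) β m hβ hm h b (by omega) d le_rfl
    rw [c2_lev_top] at h2
    rw [Finset.sum_Ico_succ_top hab]
    linarith

theorem steps {M a b : ℕ} (hab : a ≤ b) (hb : b ≤ M) (β m : ℝ)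
    (hβ : 0 ≤ β) (hm : 0 < m) (h : ∀ (S : Finset (Vx d)) (x : Vx d), m ≤ mp S β x) :
    ∃ D : ℝ, HasDerivAt (GG d M a b) D β ∧
      cc d M (fun _ => a) β - D / m ^ 2 ≤ cc d M (fun _ => b) β := by
  choose Dv h1 h2 using fun T => hasDerivAt_FF (Q d M) T β hβ
  refine ⟨∑ k ∈ Finset.Ico a b, ∑ r ∈ Finset.range d, 2 ^ k * ∑ z ∈ Q d M, Dv (TT M (lev k r) z),
    ?_, ?_⟩
  · have h3 : GG d M a b = fun β => ∑ k ∈ Finset.Ico a b, ∑ r ∈ Finset.range d,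
        2 ^ k * ∑ z ∈ Q d M, FF (Q d M) (TT M (lev k r) z) β := rfl
    rw [h3]
    refine HasDerivAt.fun_sum fun k _ => HasDerivAt.fun_sum fun r _ => ?_
    exact (HasDerivAt.fun_sum fun z _ => h1 (TT M (lev k r) z)).const_mul _
  · refine le_trans ?_ (c2_levels (M := M) β m hβ hm h hab hb)
    have h4 : ∑ k ∈ Finset.Ico a b, ∑ j ∈ Finset.range d, 2 ^ k / m ^ 2 * c2_W d M β k j ≤
        (∑ k ∈ Finset.Ico a b, ∑ r ∈ Finset.range d,
          2 ^ k * ∑ z ∈ Q d M, Dv (TT M (lev k r) z)) / m ^ 2 := by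
      rw [Finset.sum_div]
      refine Finset.sum_le_sum fun k _ => ?_
      rw [Finset.sum_div]
      refine Finset.sum_le_sum fun j _ => ?_
      rw [div_mul_eq_mul_div]
      refine div_le_div_of_nonneg_right ?_ (by positivity)
      refine mul_le_mul_of_nonneg_left ?_ (by positivity)
      exact Finset.sum_le_sum fun z _ => h2 _
    linarith

/-! ## row c3: the size of the potential -/

private lemma c3_geo1 {a b : ℕ} (hab : a ≤ b) :
    ∑ k ∈ Finset.Ico a b, (2 : ℝ) ^ k ≤ 2 ^ b := by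
  induction b, hab using Nat.le_induction with
  | base => simp
  | succ b hb ih =>
    rw [Finset.sum_Ico_succ_top hb, pow_succ]
    linarith

private lemma c3_geo2 {a b : ℕ} (hab : a ≤ b) :
    ∑ k ∈ Finset.Ico a b, 1 / (2 : ℝ) ^ k ≤ 2 / 2 ^ a := by
  have key : ∑ k ∈ Finset.Ico a b, 1 / (2 : ℝ) ^ k ≤ 2 / 2 ^ a - 2 / 2 ^ b := by
    induction b, hab using Nat.le_induction with
    | base => simp
    | succ b hb ih =>
      rw [Finset.sum_Ico_succ_top hb, pow_succ]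
      have h3 : (2 : ℝ) / (2 ^ b * 2) = 1 / 2 ^ b := by
        field_simp
      have h4 : (2 : ℝ) / 2 ^ b = 1 / 2 ^ b + 1 / 2 ^ b := by ring
      rw [h3]
      linarith
  have : (0 : ℝ) ≤ 2 / 2 ^ b := by positivity
  linarith

private lemma c3_lev {M k : ℕ} (hk : k + 1 ≤ M) (r : ℕ) : ∀ i, (lev k r : Fin d → ℕ) i ≤ M := by
  intro i
  unfold lev
  split_ifs <;> omega

private lemma c3_sum_lev (k r : ℕ) : d * k ≤ ∑ i, (lev k r : Fin d → ℕ) i := by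
  calc d * k = ∑ _i : Fin d, k := by rw [Finset.sum_const, Finset.card_univ, Fintype.card_fin,
        smul_eq_mul]
    _ ≤ _ := by
        refine Finset.sum_le_sum fun i _ => ?_
        unfold lev
        split_ifs <;> omega

private lemma c3_term (hd : 2 ≤ d) {M k : ℕ} (hk : k + 1 ≤ M) {β₁ β₂ : ℝ} (h1 : 0 ≤ β₁)
    (h2 : 0 ≤ β₂) (r : ℕ) :
    2 ^ k * ∑ z ∈ Q d M, FF (Q d M) (TT M (lev k r) z) β₂ -
        2 ^ k * ∑ z ∈ Q d M, FF (Q d M) (TT M (lev k r) z) β₁ ≤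
      2 * d * β₂ * (2 ^ k / 2 ^ M) * (2 ^ (d * M)) ^ 2 + 1 / 2 ^ k * (2 ^ (d * M)) ^ 2 := by
  have hz : ∀ z ∈ Q d M, FF (Q d M) (TT M (lev k r) z) β₂ - FF (Q d M) (TT M (lev k r) z) β₁ ≤
      2 * d * β₂ * (2 ^ (d * M) / 2 ^ M) + 2 ^ (d * M) / (2 ^ k * 2 ^ k) := by
    intro z _
    have e1 := FF_le (Q d M) (TT M (lev k r) z) β₂ h2
    have e2 := FF_ge (Q d M) (TT M (lev k r) z) (TT_sub M _ z) β₁ h1
    have e3 := mul_le_mul_of_nonneg_left (card_etg_Q d M) h2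
    have e4 : ((2 : ℝ) ^ ((d - 1) * M)) = 2 ^ (d * M) / 2 ^ M := by
      rw [eq_div_iff (by positivity), ← pow_add]
      congr 1
      obtain ⟨n, rfl⟩ : ∃ n, d = n + 1 := ⟨d - 1, by omega⟩
      rw [Nat.add_sub_cancel]
      ring
    have e5 : (((TT M (lev k r) z).card : ℝ)) * Real.log 2 ≤ 2 ^ (d * M) / (2 ^ k * 2 ^ k) := by
      have f1 := card_TT (c3_lev hk r) z
      have f2 : (TT M (lev k r) z).card * (2 ^ k * 2 ^ k) ≤ 2 ^ (d * M) := by
        refine le_trans (Nat.mul_le_mul_left _ ?_) f1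
        rw [← pow_add]
        refine Nat.pow_le_pow_right (by norm_num) ?_
        calc k + k = 2 * k := by ring
          _ ≤ d * k := Nat.mul_le_mul_right _ hd
          _ ≤ _ := c3_sum_lev k r
      have f3 : ((TT M (lev k r) z).card : ℝ) ≤ 2 ^ (d * M) / (2 ^ k * 2 ^ k) := by
        rw [le_div_iff₀ (by positivity)]
        exact_mod_cast f2
      have f4 : Real.log 2 ≤ 1 := by
        have := Real.log_le_sub_one_of_pos (show (0 : ℝ) < 2 by norm_num)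
        linarith
      calc (((TT M (lev k r) z).card : ℝ)) * Real.log 2
          ≤ ((TT M (lev k r) z).card : ℝ) * 1 :=
            mul_le_mul_of_nonneg_left f4 (Nat.cast_nonneg _)
        _ ≤ _ := by rw [mul_one]; exact f3
    rw [e4] at e3
    have e6 : β₂ * (2 * (d : ℝ) * (2 ^ (d * M) / 2 ^ M)) =
        2 * d * β₂ * (2 ^ (d * M) / 2 ^ M) := by ring
    linarith
  rw [← mul_sub, ← Finset.sum_sub_distrib]
  have hs := Finset.sum_le_card_nsmul _ _ _ hz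
  rw [card_Q, nsmul_eq_mul] at hs
  have hs2 := mul_le_mul_of_nonneg_left hs (show (0 : ℝ) ≤ 2 ^ k by positivity)
  refine hs2.trans (le_of_eq ?_)
  push_cast
  field_simp

/-- `FF_le`, `FF_ge`, `card_TT` (`∑ lev ≥ d k`), `card_etg_Q`, geometric sums -/
theorem GG_bound (hd : 2 ≤ d) {M a b : ℕ} (hab : a ≤ b) (hb : b ≤ M) (β₁ β₂ : ℝ) (h1 : 0 ≤ β₁)
    (h12 : β₁ ≤ β₂) :
    GG d M a b β₂ - GG d M a b β₁ ≤
      (2 * d ^ 2 * β₂ * 2 ^ b / 2 ^ M + 2 * d / 2 ^ a) * (2 ^ (d * M)) ^ 2 := by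
  have h2 : 0 ≤ β₂ := h1.trans h12
  have hdd : (0 : ℝ) ≤ d := Nat.cast_nonneg d
  have hterm : ∀ k ∈ Finset.Ico a b, ∀ r ∈ Finset.range d,
      2 ^ k * ∑ z ∈ Q d M, FF (Q d M) (TT M (lev k r) z) β₂ -
        2 ^ k * ∑ z ∈ Q d M, FF (Q d M) (TT M (lev k r) z) β₁ ≤
      2 * d * β₂ * (2 ^ k / 2 ^ M) * (2 ^ (d * M)) ^ 2 + 1 / 2 ^ k * (2 ^ (d * M)) ^ 2 := by
    intro k hk r _
    rw [Finset.mem_Ico] at hk
    exact c3_term hd (by omega) h1 h2 r
  unfold GG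
  rw [← Finset.sum_sub_distrib]
  calc ∑ k ∈ Finset.Ico a b, ((∑ r ∈ Finset.range d, 2 ^ k *
          ∑ z ∈ Q d M, FF (Q d M) (TT M (lev k r) z) β₂) -
        ∑ r ∈ Finset.range d, 2 ^ k * ∑ z ∈ Q d M, FF (Q d M) (TT M (lev k r) z) β₁)
      ≤ ∑ k ∈ Finset.Ico a b, d * (2 * d * β₂ * (2 ^ k / 2 ^ M) * (2 ^ (d * M)) ^ 2 +
          1 / 2 ^ k * (2 ^ (d * M)) ^ 2) := by
        refine Finset.sum_le_sum fun k hk => ?_
        rw [← Finset.sum_sub_distrib]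
        refine (Finset.sum_le_card_nsmul _ _ _ (hterm k hk)).trans (le_of_eq ?_)
        rw [Finset.card_range, nsmul_eq_mul]
    _ = (2 * d ^ 2 * β₂ / 2 ^ M * ∑ k ∈ Finset.Ico a b, (2 : ℝ) ^ k +
          d * ∑ k ∈ Finset.Ico a b, 1 / (2 : ℝ) ^ k) * (2 ^ (d * M)) ^ 2 := by
        rw [add_mul, Finset.mul_sum, Finset.mul_sum, Finset.sum_mul, Finset.sum_mul,
          ← Finset.sum_add_distrib]
        refine Finset.sum_congr rfl fun k _ => ?_
        ring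
    _ ≤ (2 * d ^ 2 * β₂ / 2 ^ M * 2 ^ b + d * (2 / 2 ^ a)) * (2 ^ (d * M)) ^ 2 := by
        refine mul_le_mul_of_nonneg_right (add_le_add ?_ ?_) (by positivity)
        · exact mul_le_mul_of_nonneg_left (c3_geo1 hab) (by positivity)
        · exact mul_le_mul_of_nonneg_left (c3_geo2 hab) hdd
    _ = _ := by ring

/-! ## row c4: mean value theorem -/

theorem exists_beta (hd : 2 ≤ d) {M a b : ℕ} (hab : a ≤ b) (hb : b ≤ M) (β₁ β₂ m : ℝ)
    (h1 : 0 ≤ β₁) (h12 : β₁ < β₂) (hm : 0 < m)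
    (h : ∀ β, β₁ ≤ β → ∀ (S : Finset (Vx d)) (x : Vx d), m ≤ mp S β x) :
    ∃ β, β₁ < β ∧ β < β₂ ∧
      cc d M (fun _ => a) β - (2 * d ^ 2 * β₂ * 2 ^ b / 2 ^ M + 2 * d / 2 ^ a) *
        (2 ^ (d * M)) ^ 2 / ((β₂ - β₁) * m ^ 2) ≤ cc d M (fun _ => b) β := by
  have hst : ∀ β, β₁ ≤ β → ∃ D : ℝ, HasDerivAt (GG d M a b) D β ∧
      cc d M (fun _ => a) β - D / m ^ 2 ≤ cc d M (fun _ => b) β := fun β hβ =>
    steps hab hb β m (h1.trans hβ) hm (h β hβ)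
  have hcont : ContinuousOn (GG d M a b) (Set.Icc β₁ β₂) := by
    intro x hx
    obtain ⟨D, hD, _⟩ := hst x hx.1
    exact hD.continuousAt.continuousWithinAt
  have hdiff : ∀ x ∈ Set.Ioo β₁ β₂, HasDerivAt (GG d M a b) (deriv (GG d M a b) x) x := by
    intro x hx
    obtain ⟨D, hD, _⟩ := hst x hx.1.le
    exact hD.differentiableAt.hasDerivAt
  obtain ⟨β, hβ, hs⟩ := exists_hasDerivAt_eq_slope (GG d M a b) (deriv (GG d M a b)) h12 hcont hdiff
  obtain ⟨D, hD, hle⟩ := hst β hβ.1.le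
  refine ⟨β, hβ.1, hβ.2, ?_⟩
  rw [hD.deriv] at hs
  have hG := GG_bound hd hab hb β₁ β₂ h1 h12.le
  have hp : 0 < β₂ - β₁ := sub_pos.mpr h12
  have hm2 : 0 < m ^ 2 := by positivity
  have hDle : D / m ^ 2 ≤ (2 * d ^ 2 * β₂ * 2 ^ b / 2 ^ M + 2 * d / 2 ^ a) *
        (2 ^ (d * M)) ^ 2 / ((β₂ - β₁) * m ^ 2) := by
    rw [hs, div_div]
    exact div_le_div_of_nonneg_right hG (by positivity)
  linarith

/-! ## row c5: the first scale -/

/- BEGIN c5 (helper83) -/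
private lemma c5_count (d M R : ℕ) (h : 4 * R * d + 2 * R ≤ 2 ^ M) :
    (2 ^ (d * M) : ℝ) / 2 ≤
      ((Finset.Icc (fun _ : Fin d => (R : ℤ)) (fun _ => 2 ^ M - 1 - (R : ℤ))).card : ℝ) := by
  have h0 : (4 * R * d + 2 * R : ℝ) ≤ 2 ^ M := by exact_mod_cast h
  have hM : (0 : ℝ) < 2 ^ M := by positivity
  have h1 : (Finset.Icc (fun _ : Fin d => (R : ℤ)) (fun _ => 2 ^ M - 1 - (R : ℤ))).card =
      (2 ^ M - 2 * R) ^ d := by
    rw [Pi.card_Icc]
    simp only [Int.card_Icc, Finset.prod_const, Finset.card_univ, Fintype.card_fin]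
    congr 1
    have h2 : 2 * R ≤ 2 ^ M := by omega
    have h3 : ((2 ^ M - 2 * R : ℕ) : ℤ) = 2 ^ M - 1 - (R : ℤ) + 1 - R := by
      rw [Nat.cast_sub h2]
      push_cast
      ring
    rw [← h3, Int.toNat_natCast]
  rw [h1]
  have h2 : ((2 ^ M - 2 * R : ℕ) : ℝ) = 2 ^ M * (1 + -(2 * R / 2 ^ M)) := by
    rw [Nat.cast_sub (by omega)]
    push_cast
    field_simp
    ring
  push_cast [h2]
  rw [mul_pow, ← pow_mul, mul_comm M d]
  have h4 : (-2 : ℝ) ≤ -(2 * R / 2 ^ M) := by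
    have : (2 * R / 2 ^ M : ℝ) ≤ 1 := by
      rw [div_le_one hM]
      have : (0 : ℝ) ≤ 4 * R * d := by positivity
      linarith
    linarith
  have h5 := one_add_mul_le_pow h4 d
  have h6 : (1 / 2 : ℝ) ≤ 1 + d * -(2 * R / 2 ^ M) := by
    have : (d * (2 * R / 2 ^ M) : ℝ) ≤ 1 / 2 := by
      rw [mul_div_assoc', div_le_iff₀ hM]
      have : (0 : ℝ) ≤ 2 * R := by positivity
      linarith
    linarith
  have h7 : (0 : ℝ) < 2 ^ (d * M) := by positivity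
  calc (2 ^ (d * M) : ℝ) / 2 = 2 ^ (d * M) * (1 / 2) := by ring
    _ ≤ _ := mul_le_mul_of_nonneg_left (h6.trans h5) h7.le

private lemma c5_tt (a : ℕ) (z x : Vx d) (i : Fin d) :
    -(2 ^ a : ℤ) ≤ tt (fun _ => a) z x i - x i ∧ tt (fun _ => a) z x i - x i ≤ 2 ^ a := by
  have hK : (0 : ℤ) < 2 ^ a := by positivity
  have h1 := Int.emod_add_mul_ediv (x i) (2 ^ a)
  have h2 := Int.emod_nonneg (x i) hK.ne'
  have h3 := Int.emod_lt_of_pos (x i) hK
  have h4 := Int.emod_nonneg (z i) hK.ne'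
  have h5 := Int.emod_lt_of_pos (z i) hK
  unfold tt
  constructor <;> linarith

/-- `free_lro` for the finitely many differences, `cf_shift`, `cf_mono`; at least half of the points
of the box have distance at least `R` from the boundary, `mp ≤ 1` -/
theorem base (hd : 1 ≤ d) (β₀ β₁ m : ℝ) (h0 : 0 ≤ β₀) (h1 : β₀ < β₁) (hm : 0 < m)
    (hmag : ∀ L : ℕ, m ≤ mp (Finset.Icc (fun _ : Fin d => -(L : ℤ)) (fun _ => (L : ℤ))) β₀ 0)
    (a : ℕ) : ∃ M₀ : ℕ, ∀ M, M₀ ≤ M → ∀ β, β₁ ≤ β →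
      m ^ 2 / 4 * (2 ^ (d * M)) ^ 2 ≤ cc d M (fun _ => a) β := by
  classical
  have hev : ∀ᶠ L : ℕ in Filter.atTop,
      ∀ v ∈ Finset.Icc (fun _ : Fin d => -(2 ^ a : ℤ)) (fun _ => (2 ^ a : ℤ)),
        m ^ 2 / 2 ≤ cf (Finset.Icc (fun _ : Fin d => -(L : ℤ)) (fun _ => (L : ℤ))) β₁ 0 v := by
    rw [Filter.eventually_all_finset]
    intro v _
    exact free_lro hd β₀ β₁ h0 h1 m hm.le hmag v (m ^ 2 / 2) (by nlinarith [sq_nonneg m, pow_pos hm 2])
  obtain ⟨R₀, hR₀⟩ := Filter.eventually_atTop.1 hev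
  let R : ℕ := max R₀ (2 ^ a)
  have hR1 := hR₀ R (le_max_left _ _)
  have hRa : (2 ^ a : ℕ) ≤ R := le_max_right _ _
  refine ⟨4 * R * d + 2 * R, fun M hM β hβ => ?_⟩
  have hM' : 4 * R * d + 2 * R ≤ 2 ^ M := hM.trans Nat.lt_two_pow_self.le
  have hβ₁ : 0 ≤ β₁ := h0.trans h1.le
  have hβ0 : 0 ≤ β := hβ₁.trans hβ
  have hmp : ∀ (S : Finset (Vx d)) (x : Vx d), m ≤ mp S β x :=
    fun S x => le_mp β₀ m h0 hmag β (h1.le.trans hβ) S x
  -- the inner points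
  let I : Finset (Vx d) := Finset.Icc (fun _ : Fin d => (R : ℤ)) (fun _ => 2 ^ M - 1 - (R : ℤ))
  have hI : I ⊆ Q d M := by
    intro x hx
    obtain ⟨hx1, hx2⟩ := Finset.mem_Icc.1 hx
    refine mem_Q.2 fun i => ⟨?_, ?_⟩
    · have := hx1 i
      have h3 : (0 : ℤ) ≤ R := Int.natCast_nonneg _
      exact h3.trans this
    · have := hx2 i
      have h3 : (0 : ℤ) ≤ R := Int.natCast_nonneg _
      have h4 : x i ≤ 2 ^ M - 1 - R := this
      linarith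
  have hcf : ∀ z x, 0 ≤ hh (Q d M) (TT M (fun _ => a) z) β x (tt (fun _ => a) z x) := fun z x =>
    div_nonneg (cf_nonneg _ β hβ0 _ _) (hm.le.trans (hmp _ _))
  have hin : ∀ z, ∀ x ∈ I,
      m ^ 2 / 2 ≤ hh (Q d M) (TT M (fun _ => a) z) β x (tt (fun _ => a) z x) := by
    intro z x hx
    obtain ⟨hx1, hx2⟩ := Finset.mem_Icc.1 hx
    let B : Finset (Vx d) := Finset.Icc (fun _ : Fin d => -(R : ℤ)) (fun _ => (R : ℤ))
    let v : Vx d := tt (fun _ => a) z x - x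
    have hRa' : (2 ^ a : ℤ) ≤ R := by exact_mod_cast hRa
    have hv : v ∈ Finset.Icc (fun _ : Fin d => -(2 ^ a : ℤ)) (fun _ => (2 ^ a : ℤ)) :=
      Finset.mem_Icc.2 ⟨fun i => (c5_tt a z x i).1, fun i => (c5_tt a z x i).2⟩
    have hvB : v ∈ B := Finset.mem_Icc.2 ⟨fun i => by
      have := (c5_tt a z x i).1
      show -(R : ℤ) ≤ tt (fun _ => a) z x i - x i
      linarith, fun i => by
      have := (c5_tt a z x i).2
      show tt (fun _ => a) z x i - x i ≤ (R : ℤ)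
      linarith⟩
    have h0B : (0 : Vx d) ∈ B := Finset.mem_Icc.2 ⟨fun i => by
      show -(R : ℤ) ≤ 0
      have := Int.natCast_nonneg R
      linarith, fun i => Int.natCast_nonneg _⟩
    have hsub : B.image (fun y => y + x) ⊆ Q d M := by
      intro y hy
      obtain ⟨w, hw, rfl⟩ := Finset.mem_image.1 hy
      obtain ⟨hw1, hw2⟩ := Finset.mem_Icc.1 hw
      refine mem_Q.2 fun i => ?_
      have a1 : -(R : ℤ) ≤ w i := hw1 i
      have a2 : w i ≤ R := hw2 i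
      have a3 : (R : ℤ) ≤ x i := hx1 i
      have a4 : x i ≤ 2 ^ M - 1 - R := hx2 i
      show 0 ≤ w i + x i ∧ w i + x i < 2 ^ M
      constructor <;> linarith
    have h3 : m ^ 2 / 2 ≤ cf B β₁ 0 v := hR1 v hv
    have h4 := (cf_shift B β₁ 0 v x).1
    have e1 : (0 : Vx d) + x = x := zero_add x
    have e2 : v + x = tt (fun _ => a) z x := sub_add_cancel _ _
    have h5 := cf_mono _ _ hsub β₁ β hβ₁ hβ ((0 : Vx d) + x) (v + x)
      (Finset.mem_image.2 ⟨0, h0B, rfl⟩) (Finset.mem_image.2 ⟨v, hvB, rfl⟩)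
    rw [h4, e1, e2] at h5
    have h6 : 0 < mp (Q d M \ TT M (fun _ => a) z) β x := hm.trans_le (hmp _ _)
    have h7 := mp_le_one (Q d M \ TT M (fun _ => a) z) β x
    have h8 : 0 ≤ cf (Q d M) β x (tt (fun _ => a) z x) := cf_nonneg _ β hβ0 _ _
    unfold hh
    rw [le_div_iff₀ h6]
    calc m ^ 2 / 2 * mp (Q d M \ TT M (fun _ => a) z) β x ≤ m ^ 2 / 2 * 1 :=
          mul_le_mul_of_nonneg_left h7 (by positivity)
      _ ≤ _ := by rw [mul_one]; exact h3.trans h5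
  have hsum : ∀ z ∈ Q d M, m ^ 2 / 2 * (2 ^ (d * M) / 2) ≤
      ∑ x ∈ Q d M, hh (Q d M) (TT M (fun _ => a) z) β x (tt (fun _ => a) z x) := by
    intro z _
    calc m ^ 2 / 2 * (2 ^ (d * M) / 2) ≤ m ^ 2 / 2 * (I.card : ℝ) :=
          mul_le_mul_of_nonneg_left (c5_count d M R hM') (by positivity)
      _ = ∑ x ∈ I, m ^ 2 / 2 := by rw [Finset.sum_const, nsmul_eq_mul]; ring
      _ ≤ ∑ x ∈ I, hh (Q d M) (TT M (fun _ => a) z) β x (tt (fun _ => a) z x) :=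
          Finset.sum_le_sum (hin z)
      _ ≤ _ := Finset.sum_le_sum_of_subset_of_nonneg hI fun x _ _ => hcf z x
  have hQ : ((Q d M).card : ℝ) = 2 ^ (d * M) := by
    rw [card_Q]
    push_cast
    rfl
  calc m ^ 2 / 4 * (2 ^ (d * M)) ^ 2 = ∑ z ∈ Q d M, m ^ 2 / 2 * (2 ^ (d * M) / 2) := by
        rw [Finset.sum_const, nsmul_eq_mul, hQ]
        ring
    _ ≤ _ := Finset.sum_le_sum hsum
/- END c5 -/

/-! ## row c6: the last scale -/

/- BEGIN c6 (helper83) -/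
/-- `hh ≤ cf / m`, `sum_tt_le`, a point `x` with a large sum, `Q ⊆ x + [-2^M, 2^M]^d`, `cf_shift`,
`cf_mono` -/
theorem last (β₁ β₂ m c : ℝ) (h1 : 0 ≤ β₁) (h12 : β₁ ≤ β₂) (hm : 0 < m)
    (h : ∀ (S : Finset (Vx d)) (x : Vx d), m ≤ mp S β₁ x) {M b : ℕ} (hb : b ≤ M)
    (hc : c * (2 ^ (d * M)) ^ 2 ≤ cc d M (fun _ => b) β₁) :
    c * m / 2 ^ (d * (M - b)) * 2 ^ (d * M) ≤
      ∑ y ∈ Finset.Icc (fun _ : Fin d => -(2 ^ M : ℤ)) (fun _ => (2 ^ M : ℤ)),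
        cf (Finset.Icc (fun _ : Fin d => -(2 ^ M : ℤ)) (fun _ => (2 ^ M : ℤ))) β₂ 0 y := by
  classical
  have hQ : ((Q d M).card : ℝ) = 2 ^ (d * M) := by
    rw [card_Q]
    push_cast
    rfl
  let A : ℝ := 2 ^ (d * (M - b))
  have hA : (0 : ℝ) < A := by positivity
  have hN : (0 : ℝ) < 2 ^ (d * M) := by positivity
  -- the sum of the two-point function
  have h2 : cc d M (fun _ => b) β₁ ≤ ∑ x ∈ Q d M, A / m * ∑ t ∈ Q d M, cf (Q d M) β₁ x t := by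
    unfold cc
    rw [Finset.sum_comm]
    refine Finset.sum_le_sum fun x hx => ?_
    calc ∑ z ∈ Q d M, hh (Q d M) (TT M (fun _ => b) z) β₁ x (tt (fun _ => b) z x)
        ≤ ∑ z ∈ Q d M, cf (Q d M) β₁ x (tt (fun _ => b) z x) / m :=
          Finset.sum_le_sum fun z _ => div_le_div_of_nonneg_left (cf_nonneg _ β₁ h1 _ _) hm (h _ _)
      _ = (∑ z ∈ Q d M, cf (Q d M) β₁ x (tt (fun _ => b) z x)) / m :=
          (Finset.sum_div _ _ _).symm
      _ ≤ (A * ∑ t ∈ Q d M, cf (Q d M) β₁ x t) / m :=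
          div_le_div_of_nonneg_right (sum_tt_le hb hx (fun t => cf (Q d M) β₁ x t)
            fun t _ => cf_nonneg _ β₁ h1 _ _) hm.le
      _ = _ := by ring
  -- a point with a large sum
  have h3 : ∃ x ∈ Q d M, c * m / A * 2 ^ (d * M) ≤ ∑ t ∈ Q d M, cf (Q d M) β₁ x t := by
    by_contra hcon
    push Not at hcon
    have hne : (Q d M).Nonempty := by
      rw [← Finset.card_pos]
      have : (0 : ℝ) < (Q d M).card := by rw [hQ]; exact hN
      exact_mod_cast this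
    have h4 : ∑ x ∈ Q d M, A / m * ∑ t ∈ Q d M, cf (Q d M) β₁ x t <
        ∑ x ∈ Q d M, A / m * (c * m / A * 2 ^ (d * M)) :=
      Finset.sum_lt_sum_of_nonempty hne fun x hx =>
        mul_lt_mul_of_pos_left (hcon x hx) (by positivity)
    have h5 : ∑ x ∈ Q d M, A / m * (c * m / A * 2 ^ (d * M)) = c * (2 ^ (d * M)) ^ 2 := by
      rw [Finset.sum_const, nsmul_eq_mul, hQ]
      field_simp
    linarith
  obtain ⟨x, hx, h4⟩ := h3
  refine h4.trans ?_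
  let B : Finset (Vx d) := Finset.Icc (fun _ : Fin d => -(2 ^ M : ℤ)) (fun _ => (2 ^ M : ℤ))
  have hx' := mem_Q.1 hx
  have hsub : (Q d M).image (fun y => y + -x) ⊆ B := by
    intro y hy
    obtain ⟨w, hw, rfl⟩ := Finset.mem_image.1 hy
    have hw' := mem_Q.1 hw
    refine Finset.mem_Icc.2 ⟨fun i => ?_, fun i => ?_⟩
    · show -(2 ^ M : ℤ) ≤ w i + -(x i)
      have a1 := hw' i
      have a2 := hx' i
      linarith [a1.1, a2.2]
    · show w i + -(x i) ≤ (2 ^ M : ℤ)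
      have a1 := hw' i
      have a2 := hx' i
      linarith [a1.2, a2.1]
  have hcfB : ∀ y, 0 ≤ cf B β₂ 0 y := fun y => cf_nonneg _ β₂ (h1.trans h12) _ _
  calc ∑ t ∈ Q d M, cf (Q d M) β₁ x t ≤ ∑ t ∈ Q d M, cf B β₂ 0 (t + -x) := by
        refine Finset.sum_le_sum fun t ht => ?_
        have h5 := (cf_shift (Q d M) β₁ x t (-x)).1
        have h6 := cf_mono _ _ hsub β₁ β₂ h1 h12 (x + -x) (t + -x)
          (Finset.mem_image.2 ⟨x, hx, rfl⟩) (Finset.mem_image.2 ⟨t, ht, rfl⟩)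
        rw [h5, add_neg_cancel] at h6
        exact h6
    _ = ∑ y ∈ (Q d M).image (fun y => y + -x), cf B β₂ 0 y :=
        (Finset.sum_image fun _ _ _ _ hab => add_right_cancel hab).symm
    _ ≤ ∑ y ∈ B, cf B β₂ 0 y :=
        Finset.sum_le_sum_of_subset_of_nonneg hsub fun y _ _ => hcfB y
/- END c6 -/

/-! ## row c7: the theorem -/

-- row c7 (helper23): replaces lro in Main.lean
/-- the box `[-N, N]^d` -/
private noncomputable def c7_B (d : ℕ) (N : ℤ) : Finset (Vx d) :=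
  Finset.Icc (fun _ : Fin d => -N) (fun _ => N)

private lemma c7_mem {N : ℤ} {x : Vx d} : x ∈ c7_B d N ↔ ∀ i, -N ≤ x i ∧ x i ≤ N := by
  unfold c7_B
  rw [Finset.mem_Icc, Pi.le_def, Pi.le_def]
  exact ⟨fun h i => ⟨h.1 i, h.2 i⟩, fun h => ⟨fun i => (h i).1, fun i => (h i).2⟩⟩

private lemma c7_self (S : Finset (Vx d)) (β : ℝ) (x : Vx d) : cf S β x x = 1 := by
  have sq : ∀ T : Finset (Vx d), spin T x * spin T x = 1 := by
    intro T
    unfold spin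
    split_ifs <;> norm_num
  have pos : 0 < GI S (edg S) β (fun _ => 1) := l3_GI_pos S _ β
  unfold cf av
  rw [show (fun T : Finset (Vx d) => spin T x * spin T x) = fun _ => 1 from funext sq]
  exact div_self pos.ne'

private noncomputable def c7_g (d : ℕ) (β : ℝ) (N : ℤ) : ℝ :=
  ∑ y ∈ c7_B d N, cf (c7_B d N) β 0 y

private lemma c7_sub {N N' : ℤ} (h : N ≤ N') : c7_B d N ⊆ c7_B d N' := by
  intro x hx
  rw [c7_mem] at hx ⊢
  exact fun i => ⟨by have := (hx i).1; linarith, by have := (hx i).2; linarith⟩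

private lemma c7_zero {N : ℤ} (h : 0 ≤ N) : (0 : Vx d) ∈ c7_B d N := by
  rw [c7_mem]
  exact fun i => ⟨by show -N ≤ 0; linarith, by show 0 ≤ N; exact h⟩

private lemma c7_mono (β : ℝ) (hβ : 0 ≤ β) {N N' : ℤ} (h0 : 0 ≤ N) (h : N ≤ N') :
    c7_g d β N ≤ c7_g d β N' := by
  unfold c7_g
  refine le_trans (Finset.sum_le_sum fun y hy => ?_)
    (Finset.sum_le_sum_of_subset_of_nonneg (c7_sub h) fun y _ _ => cf_nonneg _ β hβ _ _)
  exact cf_mono _ _ (c7_sub h) β β hβ le_rfl 0 y (c7_zero h0) hy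

private lemma c7_one (β : ℝ) (hβ : 0 ≤ β) {N : ℤ} (h0 : 0 ≤ N) : 1 ≤ c7_g d β N := by
  unfold c7_g
  have h1 := Finset.single_le_sum (f := fun y => cf (c7_B d N) β 0 y)
    (fun y _ => cf_nonneg _ β hβ 0 y) (c7_zero (d := d) h0)
  have h2 : cf (c7_B d N) β 0 0 = 1 := c7_self _ β 0
  rw [← h2]
  exact h1

private lemma c7_pow (K : ℝ) : ∃ n : ℕ, K ≤ 2 ^ n := by
  obtain ⟨n, hn⟩ := pow_unbounded_of_one_lt K (one_lt_two)
  exact ⟨n, hn.le⟩

private lemma c7_big (hd : 2 ≤ d) (β₀ β m : ℝ) (h0 : 0 ≤ β₀) (h1 : β₀ < β) (hm : 0 < m)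
    (hmag : ∀ L : ℕ, m ≤ mp (Finset.Icc (fun _ : Fin d => -(L : ℤ)) (fun _ => (L : ℤ))) β₀ 0) :
    ∃ (c : ℝ) (M₁ : ℕ), 0 < c ∧ ∀ M, M₁ ≤ M → c * 2 ^ (d * M) ≤ c7_g d β (2 ^ M) := by
  set β₁ : ℝ := (β₀ + β) / 2 with hβ₁
  have h01 : β₀ < β₁ := by rw [hβ₁]; linarith
  have h12 : β₁ < β := by rw [hβ₁]; linarith
  have hβ : 0 ≤ β := by linarith
  have hδ : 0 < β - β₁ := by linarith
  have hmp : ∀ β', β₁ ≤ β' → ∀ (S : Finset (Vx d)) (x : Vx d), m ≤ mp S β' x :=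
    fun β' h' S x => le_mp β₀ m h0 hmag β' (by linarith) S x
  have hd0 : (0 : ℝ) ≤ d := Nat.cast_nonneg d
  obtain ⟨a, ha⟩ := c7_pow (32 * d / ((β - β₁) * m ^ 4))
  obtain ⟨n, hn⟩ := c7_pow (32 * d ^ 2 * β / ((β - β₁) * m ^ 4))
  obtain ⟨M₀, hM₀⟩ := base (by omega : 1 ≤ d) β₀ β₁ m h0 h01 hm hmag a
  refine ⟨m ^ 2 / 8 * m / 2 ^ (d * n), M₀ + a + n, by positivity, fun M hM => ?_⟩
  have hab : a ≤ M - n := by omega
  have hbM : M - n ≤ M := Nat.sub_le _ _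
  obtain ⟨β', hb1, hb2, hb3⟩ := exists_beta hd hab hbM β₁ β m (by linarith) h12 hm hmp
  have hbase := hM₀ M (by omega) β' hb1.le
  have hpos : (0 : ℝ) < (2 ^ (d * M)) ^ 2 := by positivity
  have e1 : (2 : ℝ) * d ^ 2 * β * 2 ^ (M - n) / 2 ^ M = 2 * d ^ 2 * β / 2 ^ n := by
    have h2 : (2 : ℝ) ^ M = 2 ^ (M - n) * 2 ^ n := by
      rw [← pow_add]
      congr 1
      omega
    rw [h2, mul_div_mul_comm, div_eq_mul_inv, div_eq_mul_inv, div_eq_mul_inv]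
    have h3 : (2 : ℝ) ^ (M - n) ≠ 0 := by positivity
    field_simp
  have hD : 0 < (β - β₁) * m ^ 2 := by positivity
  have f1 : (2 : ℝ) * d ^ 2 * β / 2 ^ n ≤ (β - β₁) * m ^ 2 * (m ^ 2 / 16) := by
    rw [div_le_iff₀ (by positivity)]
    rw [div_le_iff₀ (by positivity)] at hn
    nlinarith [hn]
  have f2 : (2 : ℝ) * d / 2 ^ a ≤ (β - β₁) * m ^ 2 * (m ^ 2 / 16) := by
    rw [div_le_iff₀ (by positivity)]
    rw [div_le_iff₀ (by positivity)] at ha
    nlinarith [ha]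
  have hc : m ^ 2 / 8 * (2 ^ (d * M)) ^ 2 ≤ cc d M (fun _ => M - n) β' := by
    refine le_trans ?_ hb3
    rw [e1]
    have f3 : (2 * (d : ℝ) ^ 2 * β / 2 ^ n + 2 * d / 2 ^ a) * (2 ^ (d * M)) ^ 2 /
        ((β - β₁) * m ^ 2) ≤ m ^ 2 / 8 * (2 ^ (d * M)) ^ 2 := by
      rw [div_le_iff₀ hD]
      have f4 : (2 * (d : ℝ) ^ 2 * β / 2 ^ n + 2 * d / 2 ^ a) * (2 ^ (d * M)) ^ 2 ≤
          ((β - β₁) * m ^ 2 * (m ^ 2 / 8)) * (2 ^ (d * M)) ^ 2 :=
        mul_le_mul_of_nonneg_right (by linarith) hpos.le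
      refine f4.trans (le_of_eq ?_)
      ring
    have f5 : m ^ 2 / 4 * (2 ^ (d * M)) ^ 2 =
        m ^ 2 / 8 * (2 ^ (d * M)) ^ 2 + m ^ 2 / 8 * (2 ^ (d * M) : ℝ) ^ 2 := by ring
    linarith
  have hl := last β' β m (m ^ 2 / 8) (by linarith) hb2.le hm (fun S x => hmp β' hb1.le S x) hbM hc
  have e2 : M - (M - n) = n := by omega
  rw [e2] at hl
  exact hl

/-- FREE BOUNDARY LONG RANGE ORDER: above the critical point the sum of the two-point function in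
the box `[-L, L]^d` with free boundary conditions is at least a constant times the volume. -/
theorem lro (hd : 2 ≤ d) (β₀ β m : ℝ) (h0 : 0 ≤ β₀) (h1 : β₀ < β) (hm : 0 < m)
    (hmag : ∀ L : ℕ, m ≤ mp (Finset.Icc (fun _ : Fin d => -(L : ℤ)) (fun _ => (L : ℤ))) β₀ 0) :
    ∃ c : ℝ, 0 < c ∧ ∀ L : ℕ, c * (2 * L + 1 : ℝ) ^ d ≤
      ∑ y ∈ Finset.Icc (fun _ : Fin d => -(L : ℤ)) (fun _ => (L : ℤ)),
        cf (Finset.Icc (fun _ : Fin d => -(L : ℤ)) (fun _ => (L : ℤ))) β 0 y := by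
  obtain ⟨c, M₁, hc, hM₁⟩ := c7_big hd β₀ β m h0 h1 hm hmag
  have hβ : 0 ≤ β := by linarith
  refine ⟨min (c / 4 ^ d) (1 / (2 * 2 ^ M₁ + 1) ^ d), lt_min (by positivity) (by positivity),
    fun L => ?_⟩
  have hg : ∑ y ∈ Finset.Icc (fun _ : Fin d => -(L : ℤ)) (fun _ => (L : ℤ)),
        cf (Finset.Icc (fun _ : Fin d => -(L : ℤ)) (fun _ => (L : ℤ))) β 0 y = c7_g d β (L : ℤ) := rfl
  rw [hg]
  have hL0 : (0 : ℝ) ≤ (2 * L + 1 : ℝ) ^ d := by positivity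
  rcases Nat.lt_or_ge L (2 ^ M₁) with hL | hL
  · have h2 : min (c / 4 ^ d) (1 / (2 * 2 ^ M₁ + 1) ^ d) * (2 * L + 1 : ℝ) ^ d ≤
        1 / (2 * 2 ^ M₁ + 1) ^ d * (2 * L + 1 : ℝ) ^ d :=
      mul_le_mul_of_nonneg_right (min_le_right _ _) hL0
    have h3 : (2 * L + 1 : ℝ) ^ d ≤ (2 * 2 ^ M₁ + 1) ^ d := by
      refine pow_le_pow_left₀ (by positivity) ?_ d
      have h4 : (L : ℝ) ≤ 2 ^ M₁ := by exact_mod_cast hL.le
      linarith
    have h5 : 1 / (2 * 2 ^ M₁ + 1 : ℝ) ^ d * (2 * L + 1 : ℝ) ^ d ≤ 1 := by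
      rw [one_div_mul_eq_div, div_le_one (by positivity)]
      exact h3
    exact (h2.trans h5).trans (c7_one β hβ (Int.natCast_nonneg L))
  · have hL1 : L ≠ 0 := by
      have : 0 < 2 ^ M₁ := by positivity
      omega
    set M := Nat.log 2 L with hM
    have h2 : 2 ^ M ≤ L := Nat.pow_log_le_self 2 hL1
    have h3 : L < 2 ^ (M + 1) := Nat.lt_pow_succ_log_self (by norm_num) L
    have h4 : M₁ ≤ M := by
      have h5 : 2 ^ M₁ < 2 ^ (M + 1) := lt_of_le_of_lt hL h3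
      have h6 := (Nat.pow_lt_pow_iff_right (by norm_num : 1 < 2)).1 h5
      omega
    have h7 := hM₁ M h4
    have h8 : c7_g d β (2 ^ M) ≤ c7_g d β (L : ℤ) :=
      c7_mono β hβ (by positivity) (by exact_mod_cast h2)
    have h9 : min (c / 4 ^ d) (1 / (2 * 2 ^ M₁ + 1) ^ d) * (2 * L + 1 : ℝ) ^ d ≤
        c / 4 ^ d * (2 * L + 1 : ℝ) ^ d :=
      mul_le_mul_of_nonneg_right (min_le_left _ _) hL0
    have h10 : (2 * L + 1 : ℝ) ^ d ≤ 4 ^ d * 2 ^ (d * M) := by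
      have h11 : (4 : ℝ) ^ d * 2 ^ (d * M) = (4 * 2 ^ M) ^ d := by
        rw [mul_pow, ← pow_mul, mul_comm d M]
      rw [h11]
      refine pow_le_pow_left₀ (by positivity) ?_ d
      have h12 : (L : ℝ) + 1 ≤ 2 ^ (M + 1) := by exact_mod_cast h3
      rw [pow_succ] at h12
      linarith
    have h13 : c / 4 ^ d * (2 * L + 1 : ℝ) ^ d ≤ c * 2 ^ (d * M) := by
      calc c / 4 ^ d * (2 * L + 1 : ℝ) ^ d ≤ c / 4 ^ d * (4 ^ d * 2 ^ (d * M)) :=
            mul_le_mul_of_nonneg_left h10 (by positivity)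
        _ = c * 2 ^ (d * M) := by
            have : (4 : ℝ) ^ d ≠ 0 := by positivity
            field_simp
    linarith

end Pool.Agent.LRO
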