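import Pool.Agent.TC.L10

/-!
# Free boundary long range order, part 1: correlation inequalities (helper23, after helper63)

`S` is a finite set of vertices of `ℤ^d`, `T ⊆ S`. The plus system is the Ising model on `S \ T` with
plus boundary conditions (so the spins of `T` and the spins outside of `S` are plus), the free system is
the Ising model on `S` with free boundary conditions.
-/

set_option autoImplicit false

namespace Pool.Agent.LRO

open Finset Pool.Agent.SRC Pool.Agent.TC

variable {d : ℕ}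

/-- expectation of the bond `e` in the plus system; the edge set is `etg S` (the bonds between two
vertices of `T` are constant) -/
noncomputable def eb (S T : Finset (Vx d)) (β : ℝ) (e : Ed d) : ℝ := av (S \ T) (etg S) β (bond e)

/-- the difference of the energies of `e` in the plus system and in the free system -/
noncomputable def dd (S T : Finset (Vx d)) (β : ℝ) (e : Ed d) : ℝ :=
  eb S T β e - cf S β e.1 (tip e)

/-- the two-point function of the free system divided by the magnetisation of the plus system -/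
noncomputable def hh (S T : Finset (Vx d)) (β : ℝ) (x t : Vx d) : ℝ :=
  cf S β x t / mp (S \ T) β x

/-! ## row a1 -/
-- BEGIN a1

private theorem a1_edg_sub (S : Finset (Vx d)) : edg S ⊆ etg S := by
  intro e he
  rw [mem_edg] at he
  unfold etg
  rw [Finset.mem_union]
  left
  rw [Finset.mem_product]
  exact ⟨he.1, Finset.mem_univ _⟩

private theorem a1_free (S : Finset (Vx d)) (β : ℝ) (f : Finset (Vx d) → ℝ) :
    GI S (edg S) β f = GZ S (etg S) bond (fun e => if e ∈ edg S then β else 0) f := by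
  unfold GI GZ
  refine Finset.sum_congr rfl fun T _ => ?_
  congr 2
  rw [Finset.mul_sum, ← Finset.sum_subset (a1_edg_sub S)]
  · refine Finset.sum_congr rfl fun e he => ?_
    dsimp only
    rw [if_pos he]
  · intro e _ he
    dsimp only
    rw [if_neg he, zero_mul]

private theorem a1_plus (S : Finset (Vx d)) (E : Finset (Ed d)) (β : ℝ) (f : Finset (Vx d) → ℝ) :
    GI S E β f = GZ S E bond (fun _ => β) f := by
  unfold GI GZ
  refine Finset.sum_congr rfl fun T _ => ?_
  rw [Finset.mul_sum]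

/-- Ginibre for the plus system on `S \ T` and the free system on `S` -/
private theorem a1_gin (S T : Finset (Vx d)) (β : ℝ) (hβ : 0 ≤ β)
    (A B : Finset (Vx d) → ℝ) (hA : IsChar A) (hB : IsChar B) :
    av (S \ T) (etg S) β B * av S (edg S) β A - av (S \ T) (etg S) β A * av S (edg S) β B ≤
      av (S \ T) (etg S) β (fun U => A U * B U) - av S (edg S) β (fun U => A U * B U) := by
  have h := ginibre (S \ T) S Finset.sdiff_subset (etg S) bond (fun e _ => l3_char_bond e)
    (fun _ => β) (fun e => if e ∈ edg S then β else 0)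
    (fun e _ => by split_ifs; exacts [hβ, le_refl _])
    (fun e _ => Or.inl (by split_ifs; exacts [le_refl _, hβ])) A B hA hB 1 (Or.inl rfl)
  simp only [← a1_plus, ← a1_free] at h
  have hp := l3_GI_pos (S \ T) (etg S) β
  have hq := l3_GI_pos S (edg S) β
  unfold av
  rw [div_mul_div_comm, div_mul_div_comm, div_sub_div_same, div_sub_div _ _ hp.ne' hq.ne']
  rw [div_le_div_iff_of_pos_right (mul_pos hp hq)]
  linarith

private theorem a1_av_sub (S T : Finset (Vx d)) (β : ℝ) (f : Finset (Vx d) → ℝ) :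
    av (S \ T) (etg S) β f = av (S \ T) (etg (S \ T)) β f := by
  unfold av
  rw [a1_plus, a1_plus (S \ T) (etg S), l3_GZ_sub Finset.sdiff_subset,
    l3_GZ_sub Finset.sdiff_subset, mul_div_mul_left _ _ (Real.exp_pos _).ne']

private theorem a1_av_congr (S : Finset (Vx d)) (E : Finset (Ed d)) (β : ℝ)
    (f g : Finset (Vx d) → ℝ) (h : ∀ U, U ⊆ S → f U = g U) : av S E β f = av S E β g := by
  unfold av GI
  congr 1
  refine Finset.sum_congr rfl fun U hU => ?_
  rw [h U (Finset.mem_powerset.1 hU)]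

private theorem a1_spin_one {S T U : Finset (Vx d)} {t : Vx d} (ht : t ∈ T) (hU : U ⊆ S \ T) :
    spin U t = 1 := by
  unfold spin
  rw [if_neg]
  intro h
  exact (Finset.mem_sdiff.1 (hU h)).2 ht

private theorem a1_spin_sq (U : Finset (Vx d)) (t : Vx d) : spin U t * spin U t = 1 := by
  unfold spin
  split_ifs <;> norm_num

private theorem a1_mp (S T : Finset (Vx d)) (β : ℝ) (p t : Vx d) (ht : t ∈ T) :
    av (S \ T) (etg S) β (fun U => spin U p * spin U t) = mp (S \ T) β p := by
  unfold mp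
  rw [← a1_av_sub]
  refine a1_av_congr _ _ _ _ _ fun U hU => ?_
  rw [a1_spin_one ht hU, mul_one]

private theorem a1_bond (p q t : Vx d) :
    (fun U : Finset (Vx d) => (spin U p * spin U t) * (spin U q * spin U t)) =
      fun U => spin U p * spin U q := by
  funext U
  calc (spin U p * spin U t) * (spin U q * spin U t)
      = (spin U t * spin U t) * (spin U p * spin U q) := by ring
    _ = spin U p * spin U q := by rw [a1_spin_sq, one_mul]

/-- Ginibre's inequality (`TC.ginibre`, `S \ T ⊆ S`, `E = etg S`, `J = β`, `J' = β` on `edg S` and `0`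
elsewhere, `A = s_p s_t`, `B = s_q s_t`, both signs): for `t ∈ T` the spin `s_t` is `1` in the plus system.
`etg S` can be replaced by `etg (S \ T)` in `mp` (`l3_GZ_sub`). -/
theorem lpj (S T : Finset (Vx d)) (hT : T ⊆ S) (β : ℝ) (hβ : 0 ≤ β) (e : Ed d) (he : e ∈ edg S)
    (t : Vx d) (ht : t ∈ T) :
    |mp (S \ T) β e.1 * cf S β (tip e) t - mp (S \ T) β (tip e) * cf S β e.1 t| ≤ dd S T β e := by
  have hc : ∀ p : Vx d, IsChar (fun U : Finset (Vx d) => spin U p * spin U t) := fun p =>
    isChar_mul _ _ (isChar_spin p) (isChar_spin t)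
  have h1 := a1_gin S T β hβ _ _ (hc e.1) (hc (tip e))
  have h2 := a1_gin S T β hβ _ _ (hc (tip e)) (hc e.1)
  rw [a1_mp S T β _ t ht, a1_mp S T β _ t ht, a1_bond] at h1 h2
  have h3 : (fun U : Finset (Vx d) => spin U (tip e) * spin U e.1) =
      fun U => spin U e.1 * spin U (tip e) := by
    funext U
    ring
  rw [h3] at h2
  unfold dd eb cf
  have h4 : (bond e : Finset (Vx d) → ℝ) = fun U => spin U e.1 * spin U (tip e) := rfl
  rw [h4, abs_le]
  constructor <;> linarith

theorem dd_nonneg (S T : Finset (Vx d)) (β : ℝ) (hβ : 0 ≤ β) (e : Ed d) (he : e ∈ edg S) :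
    0 ≤ dd S T β e := by
  have h1 := a1_gin S T β hβ (bond e) (fun _ => 1) (l3_char_bond e) isChar_one
  have h2 := a1_gin S T β hβ (fun _ => 1) (bond e) isChar_one (l3_char_bond e)
  simp only [mul_one, one_mul] at h1 h2
  have h5 : ∀ (S' : Finset (Vx d)) (E : Finset (Ed d)), av S' E β (fun _ => (1 : ℝ)) = 1 := by
    intro S' E
    unfold av
    exact div_self (l3_GI_pos S' E β).ne'
  rw [h5, h5] at h1 h2
  unfold dd eb cf
  have h4 : (fun U : Finset (Vx d) => spin U e.1 * spin U (tip e)) = bond e := rfl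
  rw [h4]
  linarith

-- END a1

/-! ## row a2 -/

/-- derivative of the logarithm of the partition function -/
theorem hasDerivAt_log (S : Finset (Vx d)) (E : Finset (Ed d)) (β : ℝ) :
    HasDerivAt (fun b => Real.log (GI S E b (fun _ => 1))) (∑ e ∈ E, av S E β (bond e)) β := by
  have hp := l3_GI_pos S E β
  have h1 : HasDerivAt (fun b => GI S E b (fun _ => 1))
      (∑ T ∈ S.powerset, 1 * (Real.exp (β * ∑ e ∈ E, bond e T) * (1 * ∑ e ∈ E, bond e T))) β := by
    unfold GI
    refine HasDerivAt.fun_sum fun T _ => ?_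
    exact (((hasDerivAt_id β).mul_const (∑ e ∈ E, bond e T)).exp).const_mul 1
  have h2 := h1.log hp.ne'
  have h3 : (∑ T ∈ S.powerset, 1 * (Real.exp (β * ∑ e ∈ E, bond e T) * (1 * ∑ e ∈ E, bond e T))) /
      GI S E β (fun _ => 1) = ∑ e ∈ E, av S E β (bond e) := by
    unfold av
    rw [← Finset.sum_div]
    congr 1
    unfold GI
    rw [Finset.sum_comm]
    refine Finset.sum_congr rfl fun T _ => ?_
    rw [← Finset.sum_mul]
    ring
  rw [h3] at h2
  exact h2

/-- the logarithm of the quotient of the partition functions -/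
noncomputable def FF (S T : Finset (Vx d)) (β : ℝ) : ℝ :=
  Real.log (GI (S \ T) (etg S) β (fun _ => 1)) - Real.log (GI S (edg S) β (fun _ => 1))

/-- the derivative of `FF` is at least the sum of the `dd` -/
theorem hasDerivAt_FF (S T : Finset (Vx d)) (β : ℝ) (hβ : 0 ≤ β) :
    ∃ D : ℝ, HasDerivAt (FF S T) D β ∧ ∑ e ∈ edg S, dd S T β e ≤ D := by
  refine ⟨∑ e ∈ etg S, av (S \ T) (etg S) β (bond e) - ∑ e ∈ edg S, av S (edg S) β (bond e),
    (hasDerivAt_log (S \ T) (etg S) β).sub (hasDerivAt_log S (edg S) β), ?_⟩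
  have hsub : edg S ⊆ etg S := by
    intro e he
    rw [mem_edg] at he
    unfold etg
    exact Finset.mem_union_left _ (Finset.mem_product.2 ⟨he.1, Finset.mem_univ _⟩)
  have hle : ∑ e ∈ edg S, av (S \ T) (etg S) β (bond e) ≤
      ∑ e ∈ etg S, av (S \ T) (etg S) β (bond e) := by
    refine Finset.sum_le_sum_of_subset_of_nonneg hsub fun e _ _ => ?_
    unfold av
    refine div_nonneg ?_ (l3_GI_pos (S \ T) (etg S) β).le
    have h := griffiths1 (S \ T) (etg S) bond (fun e _ => l3_char_bond e) (fun _ => β)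
      (fun _ _ => hβ) (bond e) (l3_char_bond e)
    have h' : GZ (S \ T) (etg S) bond (fun _ => β) (bond e) = GI (S \ T) (etg S) β (bond e) := by
      unfold GZ GI
      refine Finset.sum_congr rfl fun R _ => ?_
      rw [Finset.mul_sum]
    rwa [h'] at h
  have hdd : ∑ e ∈ edg S, dd S T β e = ∑ e ∈ edg S, av (S \ T) (etg S) β (bond e) -
      ∑ e ∈ edg S, av S (edg S) β (bond e) := by
    rw [← Finset.sum_sub_distrib]
    rfl
  rw [hdd]
  linarith

/-! ## row a3 -/

-- BEGIN a3

private theorem a3_sub (S : Finset (Vx d)) : edg S ⊆ etg S := by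
  intro e he
  rw [mem_edg] at he
  unfold etg
  rw [Finset.mem_union, Finset.mem_product]
  exact Or.inl ⟨he.1, Finset.mem_univ _⟩

private theorem a3_diff (S R : Finset (Vx d)) :
    (∑ e ∈ etg S, bond e R) ≤ (∑ e ∈ edg S, bond e R) + ((etg S).card - (edg S).card : ℝ) := by
  have hs := a3_sub S
  have h1 : (∑ e ∈ etg S, bond e R) = (∑ e ∈ etg S \ edg S, bond e R) + ∑ e ∈ edg S, bond e R :=
    (Finset.sum_sdiff hs).symm
  have h2 : ((etg S \ edg S).card : ℝ) = (etg S).card - (edg S).card := by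
    rw [Finset.card_sdiff_of_subset hs, Nat.cast_sub (Finset.card_le_card hs)]
  have h3 : (∑ e ∈ etg S \ edg S, bond e R) ≤ ((etg S \ edg S).card : ℝ) := by
    calc (∑ e ∈ etg S \ edg S, bond e R) ≤ ∑ e ∈ etg S \ edg S, (1 : ℝ) :=
          Finset.sum_le_sum fun e _ => by
            rcases (l3_char_bond e).1 R with h | h <;> rw [h]
            norm_num
      _ = ((etg S \ edg S).card : ℝ) := by simp
  rw [h2] at h3
  linarith

/-- `bond e ≤ 1` for the boundary edges, and the sum over `S \ T` is part of the sum over `S` -/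
theorem FF_le (S T : Finset (Vx d)) (β : ℝ) (hβ : 0 ≤ β) :
    FF S T β ≤ β * ((etg S).card - (edg S).card) := by
  unfold FF
  have hp1 : 0 < GI (S \ T) (etg S) β (fun _ => 1) := l3_GI_pos _ _ _
  have hp2 : 0 < GI S (edg S) β (fun _ => 1) := l3_GI_pos _ _ _
  have h : GI (S \ T) (etg S) β (fun _ => 1) ≤
      Real.exp (β * ((etg S).card - (edg S).card)) * GI S (edg S) β (fun _ => 1) := by
    unfold GI
    rw [Finset.mul_sum]
    calc ∑ R ∈ (S \ T).powerset, 1 * Real.exp (β * ∑ e ∈ etg S, bond e R)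
        ≤ ∑ R ∈ (S \ T).powerset, Real.exp (β * ((etg S).card - (edg S).card)) *
          (1 * Real.exp (β * ∑ e ∈ edg S, bond e R)) := by
          refine Finset.sum_le_sum fun R _ => ?_
          rw [one_mul, one_mul, ← Real.exp_add]
          refine Real.exp_le_exp.mpr ?_
          have := mul_le_mul_of_nonneg_left (a3_diff S R) hβ
          linarith
      _ ≤ _ := by
          refine Finset.sum_le_sum_of_subset_of_nonneg
            (Finset.powerset_mono.mpr Finset.sdiff_subset) fun R _ _ => ?_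
          positivity
  have h2 := Real.log_le_log hp1 h
  rw [Real.log_mul (Real.exp_pos _).ne' hp2.ne', Real.log_exp] at h2
  linarith

-- END a3

/-! ## row a4 -/

private theorem a4_prod {V ι : Type*} [DecidableEq V] (χ : ι → Finset V → ℝ) (F : Finset ι)
    (hχ : ∀ i ∈ F, IsChar (χ i)) : IsChar (fun T => ∏ i ∈ F, χ i T) := by
  classical
  induction F using Finset.induction_on with
  | empty => simpa using isChar_one
  | insert i F hi ih =>
    have h1 := isChar_mul (χ i) (fun T => ∏ i ∈ F, χ i T) (hχ i (mem_insert_self _ _))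
      (ih fun j hj => hχ j (mem_insert_of_mem hj))
    have h2 : (fun T => ∏ i ∈ insert i F, χ i T) = fun T => χ i T * ∏ i ∈ F, χ i T := by
      funext T
      rw [prod_insert hi]
    rw [h2]
    exact h1

private theorem a4_sum {V : Type*} [DecidableEq V] (S : Finset V) (A : Finset V → ℝ)
    (hA : IsChar A) : 0 ≤ ∑ T ∈ S.powerset, A T := by
  have h := griffiths1 S (∅ : Finset ℕ) (fun _ => A) (fun _ _ => hA) (fun _ => 0)
    (fun _ _ => le_refl _) A hA
  simpa [GZ] using h

/-- If `|J_i| ≤ K_i` the partition function with the couplings `J` is at most the one with the couplings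
`K`: expand `exp (J χ) = cosh J + sinh J χ` as in `TC.griffiths1`; each `∑_T ∏ χ_i (T)` is nonnegative. -/
theorem GZ_le_of_abs {V ι : Type*} [DecidableEq V] (S : Finset V) (E : Finset ι)
    (χ : ι → Finset V → ℝ) (hχ : ∀ i ∈ E, IsChar (χ i)) (J K : ι → ℝ)
    (h : ∀ i ∈ E, |J i| ≤ K i) : GZ S E χ J (fun _ => 1) ≤ GZ S E χ K (fun _ => 1) := by
  classical
  have h0 : ∀ L : ι → ℝ, GZ S E χ L (fun _ => 1) = ∑ F ∈ E.powerset,
      ((∏ i ∈ F, Real.cosh (L i)) * (∏ i ∈ E \ F, Real.sinh (L i)))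
        * ∑ T ∈ S.powerset, ∏ i ∈ E \ F, χ i T := fun L => by
    unfold GZ
    have h1 : ∀ T, Real.exp (∑ i ∈ E, L i * χ i T) =
        ∑ F ∈ E.powerset, (∏ i ∈ F, Real.cosh (L i)) * (∏ i ∈ E \ F, Real.sinh (L i)) *
          ∏ i ∈ E \ F, χ i T := by
      intro T
      rw [Real.exp_sum]
      have h2 : ∀ i ∈ E, Real.exp (L i * χ i T) = Real.cosh (L i) + Real.sinh (L i) * χ i T := by
        intro i hi
        rcases (hχ i hi).1 T with h | h
        · rw [h, mul_one, mul_one, Real.cosh_add_sinh]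
        · rw [h, mul_neg, mul_one, mul_neg, mul_one, ← sub_eq_add_neg, Real.cosh_sub_sinh]
      rw [prod_congr rfl h2, Finset.prod_add]
      refine sum_congr rfl fun F _ => ?_
      rw [prod_mul_distrib]
      ring
    simp_rw [h1, one_mul]
    rw [sum_comm]
    refine sum_congr rfl fun F _ => ?_
    rw [← mul_sum]
  rw [h0, h0]
  refine sum_le_sum fun F hF => ?_
  have hFE : F ⊆ E := mem_powerset.mp hF
  refine mul_le_mul_of_nonneg_right ?_
    (a4_sum S _ (a4_prod χ (E \ F) fun i hi => hχ i (mem_sdiff.mp hi).1))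
  have h3 : ∏ i ∈ F, Real.cosh (J i) ≤ ∏ i ∈ F, Real.cosh (K i) := by
    refine prod_le_prod (fun i _ => (Real.cosh_pos _).le) fun i hi => ?_
    rw [Real.cosh_le_cosh]
    exact (h i (hFE hi)).trans (le_abs_self _)
  have h4 : ∏ i ∈ E \ F, Real.sinh (J i) ≤ ∏ i ∈ E \ F, Real.sinh (K i) := by
    refine (le_abs_self _).trans ?_
    rw [abs_prod]
    refine prod_le_prod (fun i _ => abs_nonneg _) fun i hi => ?_
    rw [Real.abs_sinh, Real.sinh_le_sinh]
    exact h i (mem_sdiff.mp hi).1
  have h5 : 0 ≤ ∏ i ∈ E \ F, Real.sinh (K i) := prod_nonneg fun i hi =>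
    Real.sinh_nonneg_iff.mpr ((abs_nonneg _).trans (h i (mem_sdiff.mp hi).1))
  calc (∏ i ∈ F, Real.cosh (J i)) * ∏ i ∈ E \ F, Real.sinh (J i)
      ≤ (∏ i ∈ F, Real.cosh (J i)) * ∏ i ∈ E \ F, Real.sinh (K i) :=
        mul_le_mul_of_nonneg_left h4 (prod_nonneg fun i _ => (Real.cosh_pos _).le)
    _ ≤ (∏ i ∈ F, Real.cosh (K i)) * ∏ i ∈ E \ F, Real.sinh (K i) :=
        mul_le_mul_of_nonneg_right h3 h5

private theorem a4_split {V : Type*} [DecidableEq V] (S T : Finset V) (hT : T ⊆ S)
    (g : Finset V → ℝ) : ∑ R ∈ S.powerset, g R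
      = ∑ U ∈ T.powerset, ∑ R ∈ (S \ T).powerset, g (symmDiff R U) := by
  rw [← Finset.sum_product']
  refine Finset.sum_bij' (fun R _ => (R ∩ T, R \ T)) (fun p _ => symmDiff p.2 p.1) ?_ ?_ ?_ ?_ ?_
  · intro R hR
    rw [mem_powerset] at hR
    rw [mem_product, mem_powerset, mem_powerset]
    exact ⟨inter_subset_right, sdiff_subset_sdiff hR (Subset.refl _)⟩
  · intro p hp
    rw [mem_product, mem_powerset, mem_powerset] at hp
    rw [mem_powerset]
    intro x hx
    rw [Finset.mem_symmDiff] at hx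
    rcases hx with hx | hx
    · exact (mem_sdiff.mp (hp.2 hx.1)).1
    · exact hT (hp.1 hx.1)
  · intro R _
    ext x
    rw [Finset.mem_symmDiff, mem_sdiff, mem_inter]
    tauto
  · intro p hp
    rw [mem_product, mem_powerset, mem_powerset] at hp
    refine Prod.ext ?_ ?_
    · ext x
      change x ∈ symmDiff p.2 p.1 ∩ T ↔ x ∈ p.1
      rw [mem_inter, Finset.mem_symmDiff]
      have h1 : x ∈ p.1 → x ∈ T := fun h => hp.1 h
      have h2 : x ∈ p.2 → x ∉ T := fun h => (mem_sdiff.mp (hp.2 h)).2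
      tauto
    · ext x
      change x ∈ symmDiff p.2 p.1 \ T ↔ x ∈ p.2
      rw [mem_sdiff, Finset.mem_symmDiff]
      have h1 : x ∈ p.1 → x ∈ T := fun h => hp.1 h
      have h2 : x ∈ p.2 → x ∉ T := fun h => (mem_sdiff.mp (hp.2 h)).2
      tauto
  · intro R _
    congr 1
    ext x
    rw [Finset.mem_symmDiff, mem_sdiff, mem_inter]
    tauto

private theorem a4_edg_sub (S : Finset (Vx d)) : edg S ⊆ etg S := by
  intro e he
  rw [mem_edg] at he
  unfold etg
  rw [mem_union]
  exact Or.inl (mem_product.2 ⟨he.1, mem_univ _⟩)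

private theorem a4_free (S T : Finset (Vx d)) (hT : T ⊆ S) (β : ℝ) (hβ : 0 ≤ β) :
    GI S (edg S) β (fun _ => 1) ≤ 2 ^ T.card * GI (S \ T) (etg S) β (fun _ => 1) := by
  have h1 : GI S (edg S) β (fun _ => 1) = ∑ U ∈ T.powerset, ∑ R ∈ (S \ T).powerset,
      1 * Real.exp (β * ∑ e ∈ edg S, bond e (symmDiff R U)) :=
    a4_split S T hT fun R => 1 * Real.exp (β * ∑ e ∈ edg S, bond e R)
  have h2 : ∀ U ∈ T.powerset, ∑ R ∈ (S \ T).powerset,
      1 * Real.exp (β * ∑ e ∈ edg S, bond e (symmDiff R U))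
        ≤ GI (S \ T) (etg S) β (fun _ => 1) := fun U _ => by
    have h3 : ∑ R ∈ (S \ T).powerset, 1 * Real.exp (β * ∑ e ∈ edg S, bond e (symmDiff R U))
        = GZ (S \ T) (etg S) bond (fun e => if e ∈ edg S then β * bond e U else 0) (fun _ => 1) := by
      unfold GZ
      refine sum_congr rfl fun R _ => ?_
      congr 2
      rw [mul_sum, ← Finset.sum_subset (a4_edg_sub S) (fun e _ he => by
        change (if e ∈ edg S then β * bond e U else 0) * bond e R = 0
        rw [if_neg he, zero_mul])]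
      refine sum_congr rfl fun e he => ?_
      change β * bond e (symmDiff R U) = (if e ∈ edg S then β * bond e U else 0) * bond e R
      rw [if_pos he, (l3_char_bond e).2]
      ring
    have h4 : GI (S \ T) (etg S) β (fun _ => 1)
        = GZ (S \ T) (etg S) bond (fun _ => β) (fun _ => 1) := by
      unfold GZ GI
      refine sum_congr rfl fun R _ => ?_
      rw [mul_sum]
    rw [h3, h4]
    refine GZ_le_of_abs _ _ _ (fun i _ => l3_char_bond i) _ _ fun e _ => ?_
    split_ifs
    · rcases (l3_char_bond e).1 U with h5 | h5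
      · rw [h5, mul_one, abs_of_nonneg hβ]
      · rw [h5, mul_neg, mul_one, abs_neg, abs_of_nonneg hβ]
    · rw [abs_zero]
      exact hβ
  rw [h1]
  refine (sum_le_sum h2).trans (le_of_eq ?_)
  rw [sum_const, card_powerset, nsmul_eq_mul]
  push_cast
  ring

/-- `GI S (edg S) = ∑_{U ⊆ T} (sum over R ⊆ S \ T of the weight of R ∪ U)`, and each term is at most
`GI (S \ T) (etg S)` by `GZ_le_of_abs`, because `bond e (R ∪ U) = bond e R * bond e U` -/
theorem FF_ge (S T : Finset (Vx d)) (hT : T ⊆ S) (β : ℝ) (hβ : 0 ≤ β) :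
    -((T.card : ℝ) * Real.log 2) ≤ FF S T β := by
  have h1 := Real.log_le_log (l3_GI_pos S (edg S) β) (a4_free S T hT β hβ)
  rw [Real.log_mul (by positivity) (l3_GI_pos (S \ T) (etg S) β).ne', Real.log_pow] at h1
  unfold FF
  linarith

/-! ## row a5 -/

-- BEGIN a5

private theorem a5_av_le_one (S : Finset (Vx d)) (E : Finset (Ed d)) (β : ℝ)
    (f : Finset (Vx d) → ℝ) (hf : IsChar f) : av S E β f ≤ 1 := by
  unfold av
  rw [div_le_one (l3_GI_pos S E β)]
  unfold GI
  refine Finset.sum_le_sum fun R _ => ?_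
  refine mul_le_mul_of_nonneg_right ?_ (Real.exp_pos _).le
  rcases hf.1 R with h | h <;> rw [h]
  norm_num

/-- every finite set is contained in a box around `0` -/
private theorem a5_box (S : Finset (Vx d)) : ∃ L : ℕ,
    S ⊆ Finset.Icc (fun _ : Fin d => -(L : ℤ)) (fun _ => (L : ℤ)) := by
  refine ⟨∑ z ∈ S, ∑ i, (z i).natAbs, fun z hz => ?_⟩
  have h : ∀ i, |z i| ≤ ((∑ z ∈ S, ∑ i, (z i).natAbs : ℕ) : ℤ) := by
    intro i
    rw [Int.abs_eq_natAbs]
    have h1 : (z i).natAbs ≤ ∑ i, (z i).natAbs :=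
      Finset.single_le_sum (f := fun i => (z i).natAbs) (fun _ _ => Nat.zero_le _)
        (Finset.mem_univ i)
    have h2 : ∑ i, (z i).natAbs ≤ ∑ z ∈ S, ∑ i, (z i).natAbs :=
      Finset.single_le_sum (f := fun z : Vx d => ∑ i, (z i).natAbs) (fun _ _ => Nat.zero_le _) hz
    exact_mod_cast h1.trans h2
  rw [Finset.mem_Icc, Pi.le_def, Pi.le_def]
  exact ⟨fun i => (abs_le.mp (h i)).1, fun i => (abs_le.mp (h i)).2⟩

/-- the magnetisation at every point of every finite set is at least `m` (translate: `cf_shift`,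
`mp_anti`; outside of the set it is `1`) -/
theorem le_mp (β₀ m : ℝ) (h0 : 0 ≤ β₀)
    (hm : ∀ L : ℕ, m ≤ mp (Finset.Icc (fun _ : Fin d => -(L : ℤ)) (fun _ => (L : ℤ))) β₀ 0)
    (β : ℝ) (hβ : β₀ ≤ β) (S : Finset (Vx d)) (x : Vx d) : m ≤ mp S β x := by
  obtain ⟨L, hL⟩ := a5_box (S.image (fun z => z + -x))
  have h1 := (cf_shift S β x x (-x)).2.2
  rw [add_neg_cancel] at h1
  rw [← h1]
  exact (hm L).trans (l3_main _ _ hL β₀ β h0 hβ _ (isChar_spin 0))

theorem mp_le_one (S : Finset (Vx d)) (β : ℝ) (x : Vx d) : mp S β x ≤ 1 :=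
  a5_av_le_one S _ β _ (isChar_spin x)

/-- fewer fixed spins, smaller magnetisation -/
theorem mp_sdiff_mono (S T T' : Finset (Vx d)) (h : T' ⊆ T) (β : ℝ) (hβ : 0 ≤ β) (x : Vx d) :
    mp (S \ T') β x ≤ mp (S \ T) β x :=
  l3_main (S \ T) (S \ T') (Finset.sdiff_subset_sdiff (Finset.Subset.refl S) h) β β hβ le_rfl _
    (isChar_spin x)

theorem cf_nonneg (S : Finset (Vx d)) (β : ℝ) (hβ : 0 ≤ β) (x y : Vx d) : 0 ≤ cf S β x y := by
  unfold cf av
  refine div_nonneg ?_ (l3_GI_pos _ _ _).le
  have h := griffiths1 S (edg S) bond (fun e _ => l3_char_bond e) (fun _ => β) (fun _ _ => hβ)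
    (fun R : Finset (Vx d) => spin R x * spin R y) (isChar_mul _ _ (isChar_spin x) (isChar_spin y))
  unfold GZ at h
  unfold GI
  simp only [Finset.mul_sum]
  exact h

-- END a5

/-! ## row a6 -/

/-- `hh` along an edge: `lpj` divided by the product of the magnetisations -/
theorem hh_edge (S T : Finset (Vx d)) (hT : T ⊆ S) (β m : ℝ) (hβ : 0 ≤ β) (hm : 0 < m)
    (h : ∀ x, m ≤ mp (S \ T) β x) (e : Ed d) (he : e ∈ edg S) (t : Vx d) (ht : t ∈ T) :
    |hh S T β e.1 t - hh S T β (tip e) t| ≤ dd S T β e / m ^ 2 := by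
  have h1 := lpj S T hT β hβ e he t ht
  have ha := h e.1
  have hb := h (tip e)
  have hap : 0 < mp (S \ T) β e.1 := lt_of_lt_of_le hm ha
  have hbp : 0 < mp (S \ T) β (tip e) := lt_of_lt_of_le hm hb
  have h2 : hh S T β e.1 t - hh S T β (tip e) t
      = -(mp (S \ T) β e.1 * cf S β (tip e) t - mp (S \ T) β (tip e) * cf S β e.1 t)
        / (mp (S \ T) β e.1 * mp (S \ T) β (tip e)) := by
    unfold hh
    field_simp
    ring
  have h3 : 0 ≤ dd S T β e := (abs_nonneg _).trans h1
  rw [h2, abs_div, abs_neg, abs_of_pos (mul_pos hap hbp)]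
  refine div_le_div₀ h3 h1 (by positivity) ?_
  rw [pow_two]
  exact mul_le_mul ha hb hm.le hap.le

/-- along a segment in direction `r` -/
theorem hh_segment (S T : Finset (Vx d)) (hT : T ⊆ S) (β m : ℝ) (hβ : 0 ≤ β) (hm : 0 < m)
    (h : ∀ x, m ≤ mp (S \ T) β x) (t : Vx d) (ht : t ∈ T) (r : Fin d) (x : Vx d) (k : ℕ)
    (hx : ∀ j ≤ k, x + j • uv r ∈ S) :
    |hh S T β x t - hh S T β (x + k • uv r) t| ≤
      ∑ j ∈ Finset.range k, dd S T β (x + j • uv r, r) / m ^ 2 := by
  induction k with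
  | zero => simp
  | succ k ih =>
    have h1 := ih fun j hj => hx j (by omega)
    have h2 : tip ((x + k • uv r, r) : Ed d) = x + (k + 1) • uv r := by
      unfold tip
      rw [add_assoc, succ_nsmul]
    have h3 : ((x + k • uv r, r) : Ed d) ∈ edg S := by
      rw [mem_edg]
      exact ⟨hx k (by omega), by rw [h2]; exact hx (k + 1) le_rfl⟩
    have h4 := hh_edge S T hT β m hβ hm h _ h3 t ht
    rw [h2] at h4
    rw [sum_range_succ]
    exact (abs_sub_le _ (hh S T β (x + k • uv r) t) _).trans (add_le_add h1 h4)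

end Pool.Agent.LRO
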